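import Mathlib

/-!
Elementary facts on holomorphic functions on connected surfaces with complex charts:
the identity principle and the local open mapping alternative.
-/

open Set Filter TopologicalSpace
open scoped Topology

namespace Run7.h203.LeafCyc

variable {S : Type} [TopologicalSpace S] [ChartedSpace ℂ S]
  {V : Type*} [NormedAddCommGroup V] [NormedSpace ℂ V]

/-- `f` is holomorphic in all charts of the atlas. -/
def HolOn (f : S → V) : Prop :=
  ∀ φ ∈ atlas ℂ S, DifferentiableOn ℂ (f ∘ φ.symm) φ.target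

lemma HolOn.continuous {f : S → V} (hf : HolOn f) : Continuous f := by
  rw [continuous_iff_continuousAt]
  intro p
  set φ := chartAt ℂ p with hφ
  have hp : p ∈ φ.source := mem_chart_source ℂ p
  have h1 : ContinuousAt (f ∘ φ.symm) (φ p) :=
    ((hf φ (chart_mem_atlas ℂ p)).continuousOn).continuousAt
      (φ.open_target.mem_nhds (φ.map_source hp))
  have h2 : ContinuousAt ((f ∘ φ.symm) ∘ φ) p :=
    ContinuousAt.comp h1 (φ.continuousAt hp)
  refine h2.congr ?_
  filter_upwards [φ.open_source.mem_nhds hp] with q hq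
  simp [φ.left_inv hq]

variable [CompleteSpace V]

lemma HolOn.analyticOnNhd {f : S → V} (hf : HolOn f) {φ : OpenPartialHomeomorph S ℂ}
    (hφ : φ ∈ atlas ℂ S) : AnalyticOnNhd ℂ (f ∘ φ.symm) φ.target :=
  (hf φ hφ).analyticOnNhd φ.open_target

/-- Identity principle. -/
lemma HolOn.eq_const [ConnectedSpace S] {f : S → V} (hf : HolOn f) {c : V} {p₀ : S}
    (h₀ : ∀ᶠ q in 𝓝 p₀, f q = c) (q : S) : f q = c := by
  set W : Set S := {p | ∀ᶠ q in 𝓝 p, f q = c} with hW
  have hopen : IsOpen W := by
    rw [isOpen_iff_mem_nhds]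
    intro p hp
    exact eventually_eventually_nhds.2 hp
  have hclosed : IsClosed W := by
    rw [← closure_subset_iff_isClosed]
    intro p hp
    set φ := chartAt ℂ p with hφ
    have hps : p ∈ φ.source := mem_chart_source ℂ p
    have ht : φ.target ∈ 𝓝 (φ p) := φ.open_target.mem_nhds (φ.map_source hps)
    obtain ⟨r, hr, hball⟩ := Metric.mem_nhds_iff.1 ht
    have hN : φ.source ∩ φ ⁻¹' (Metric.ball (φ p) r) ∈ 𝓝 p := by
      refine inter_mem (φ.open_source.mem_nhds hps) ?_
      exact (φ.continuousAt hps).preimage_mem_nhds (Metric.ball_mem_nhds _ hr)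
    obtain ⟨p', hp'N, hp'W⟩ := mem_closure_iff_nhds.1 hp _ hN
    have han : AnalyticOnNhd ℂ (f ∘ φ.symm) (Metric.ball (φ p) r) :=
      (hf.analyticOnNhd (chart_mem_atlas ℂ p)).mono hball
    have hev : (f ∘ φ.symm) =ᶠ[𝓝 (φ p')] fun _ => c := by
      have hp't : φ p' ∈ φ.target := φ.map_source hp'N.1
      have hcont : Tendsto φ.symm (𝓝 (φ p')) (𝓝 p') := by
        have := φ.symm.continuousAt (x := φ p') hp't
        rw [ContinuousAt, φ.left_inv hp'N.1] at this
        exact this
      exact hcont.eventually hp'W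
    have heq : EqOn (f ∘ φ.symm) (fun _ => c) (Metric.ball (φ p) r) :=
      han.eqOn_of_preconnected_of_eventuallyEq analyticOnNhd_const
        (convex_ball _ _).isPreconnected hp'N.2 hev
    show ∀ᶠ q in 𝓝 p, f q = c
    filter_upwards [hN] with q hq
    have := heq hq.2
    simpa [φ.left_inv hq.1] using this
  have : W = univ := by
    rcases isClopen_iff.1 ⟨hclosed, hopen⟩ with h | h
    · exact absurd (show p₀ ∈ W from h₀) (by rw [h]; exact notMem_empty _)
    · exact h
  have hq : q ∈ W := by rw [this]; trivial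
  exact hq.self_of_nhds

omit [CompleteSpace V] in
/-- Local open mapping alternative. -/
lemma HolOn.eventually_const_or {f : S → ℂ} (hf : HolOn f) (p : S) :
    (∀ᶠ q in 𝓝 p, f q = f p) ∨ 𝓝 (f p) ≤ map f (𝓝 p) := by
  set φ := chartAt ℂ p with hφ
  have hps : p ∈ φ.source := mem_chart_source ℂ p
  have hpt : φ p ∈ φ.target := φ.map_source hps
  have hval : (f ∘ φ.symm) (φ p) = f p := by simp [φ.left_inv hps]
  have hcomp : ∀ᶠ q in 𝓝 p, ((f ∘ φ.symm) ∘ φ) q = f q := by
    filter_upwards [φ.open_source.mem_nhds hps] with q hq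
    simp [φ.left_inv hq]
  rcases (hf.analyticOnNhd (chart_mem_atlas ℂ p) (φ p)
    hpt).eventually_constant_or_nhds_le_map_nhds with h | h
  · left
    have h2 := (φ.continuousAt hps).eventually h
    filter_upwards [h2, hcomp] with q hq hq2
    rw [← hq2, Function.comp_apply, hq, hval]
  · right
    rw [hval] at h
    refine h.trans ?_
    rw [← φ.map_nhds_eq hps, Filter.map_map]
    exact (Filter.map_congr hcomp).le

/-- If the real part of a holomorphic function is constant on a nonempty open set, the function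
is constant. -/
lemma HolOn.const_of_re_const [ConnectedSpace S] {f : S → ℂ} (hf : HolOn f) {x : ℝ} {O : Set S}
    (hO : IsOpen O) {p : S} (hp : p ∈ O) (hre : ∀ q ∈ O, (f q).re = x) (q : S) :
    f q = f p := by
  rcases hf.eventually_const_or p with h | h
  · exact hf.eq_const h q
  · exfalso
    have hmem : f '' O ∈ 𝓝 (f p) := h (image_mem_map (hO.mem_nhds hp))
    obtain ⟨r, hr, hball⟩ := Metric.mem_nhds_iff.1 hmem
    have hz : f p + ((r / 2 : ℝ) : ℂ) ∈ Metric.ball (f p) r := by
      rw [Metric.mem_ball, dist_eq_norm, add_sub_cancel_left, Complex.norm_real,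
        Real.norm_eq_abs, abs_of_pos (by positivity)]
      linarith
    obtain ⟨q', hq', hq''⟩ := hball hz
    have h1 := hre q' hq'
    have h2 := hre p hp
    rw [hq''] at h1
    simp at h1
    linarith

end Run7.h203.LeafCyc
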