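import Pool.Agent.Run7.h203.LeafCyc.Defs
import Pool.Agent.Run7.h203.LeafCyc.Surface

/-!
The standard leafwise complex structure; positivity of the currents of holomorphic curves.
-/

open MeasureTheory Set TopologicalSpace Filter
open scoped Manifold ContDiff Topology

namespace Run7.h203.LeafCyc

/-- The manifold `M = ℂⁿ × ℝᵏ`.  It is foliated by the leaves `ℂⁿ × {s}`, `s ∈ ℝᵏ`. -/
abbrev Amb (n k : ℕ) : Type := (Fin n → ℂ) × (Fin k → ℝ)

lemma PHMap.smooth {L N : Type} [NormedAddCommGroup L] [NormedSpace ℝ L]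
    [NormedAddCommGroup N] [NormedSpace ℝ N] {J : LeafwiseACS L N} {U : Opens (L × N)} {S : Type}
    [TopologicalSpace S] [ChartedSpace ℂ S] (u : PHMap J U S) :
    ∀ φ ∈ atlas ℂ S, ContDiffOn ℝ ∞ (u.u ∘ φ.symm) φ.target := fun φ hφ =>
  (u.holomorphic φ hφ).1

lemma PHMap.holo {L N : Type} [NormedAddCommGroup L] [NormedSpace ℝ L]
    [NormedAddCommGroup N] [NormedSpace ℝ N] {J : LeafwiseACS L N} {U : Opens (L × N)} {S : Type}
    [TopologicalSpace S] [ChartedSpace ℂ S] (u : PHMap J U S) :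
    ∀ φ ∈ atlas ℂ S, ∀ z ∈ φ.target, ∀ h : ℂ,
    (fderiv ℝ (u.u ∘ φ.symm) z (Complex.I * h)).1 =
      J.J (u.u (φ.symm z)) (fderiv ℝ (u.u ∘ φ.symm) z h).1 := fun φ hφ =>
  (u.holomorphic φ hφ).2

/-- The standard leafwise complex structure: multiplication by `i`. -/
noncomputable def stdACS (n k : ℕ) : LeafwiseACS (Fin n → ℂ) (Fin k → ℝ) where
  J := fun _ => (Complex.I • (ContinuousLinearMap.id ℂ (Fin n → ℂ))).restrictScalars ℝ
  smooth := contDiff_const
  sq := by
    intro y v
    ext i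
    simp [← mul_assoc]

lemma stdACS_apply {n k : ℕ} (y : Amb n k) (v : Fin n → ℂ) :
    (stdACS n k).J y v = Complex.I • v := rfl

/-- the pair of real coordinates `(Re v_j, Im v_j)` -/
noncomputable def coordPair (n k : ℕ) (j : Fin n) : Amb n k →ₗ[ℝ] (Fin 2 → ℝ) where
  toFun y := ![(y.1 j).re, (y.1 j).im]
  map_add' x y := by
    ext i; fin_cases i <;> simp
  map_smul' c x := by
    ext i; fin_cases i <;> simp

/-- `ω₀ = Σ_j dx_j ∧ dy_j` as an algebraic alternating form -/
noncomputable def kahlerAlt (n k : ℕ) : Amb n k [⋀^Fin 2]→ₗ[ℝ] ℝ :=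
  ∑ j, (Matrix.detRowAlternating (n := Fin 2) (R := ℝ)).compLinearMap (coordPair n k j)

lemma kahlerAlt_apply (n k : ℕ) (m : Fin 2 → Amb n k) :
    kahlerAlt n k m = ∑ j, (((m 0).1 j).re * ((m 1).1 j).im - ((m 0).1 j).im * ((m 1).1 j).re) := by
  let ev : (Amb n k [⋀^Fin 2]→ₗ[ℝ] ℝ) →+ ℝ :=
    { toFun := fun f => f m
      map_zero' := rfl
      map_add' := fun _ _ => rfl }
  show ev (kahlerAlt n k) = _
  rw [kahlerAlt, map_sum]
  refine Finset.sum_congr rfl fun j _ => ?_
  show Matrix.det (fun i => coordPair n k j (m i)) = _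
  rw [Matrix.det_fin_two]
  simp [coordPair]

/-- `ω₀ = Σ_j dx_j ∧ dy_j` -/
noncomputable def kahler (n k : ℕ) : Cov (Amb n k) 2 :=
  { (kahlerAlt n k) with
    cont := by
      have : Continuous (fun m : Fin 2 → Amb n k =>
          ∑ j, (((m 0).1 j).re * ((m 1).1 j).im - ((m 0).1 j).im * ((m 1).1 j).re)) := by
        fun_prop
      exact this.congr fun m => (kahlerAlt_apply n k m).symm }

lemma kahler_apply (n k : ℕ) (v w : Amb n k) :
    kahler n k ![v, w] = ∑ j, ((v.1 j).re * (w.1 j).im - (v.1 j).im * (w.1 j).re) :=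
  kahlerAlt_apply n k ![v, w]

lemma kahler_J (n k : ℕ) (v w : Amb n k) (h : w.1 = Complex.I • v.1) :
    kahler n k ![v, w] = ∑ j, Complex.normSq (v.1 j) := by
  rw [kahler_apply]
  refine Finset.sum_congr rfl fun j _ => ?_
  rw [h, Complex.normSq_apply]
  simp [Pi.smul_apply]

variable {n k : ℕ} {U : Opens (Amb n k)} {S : Type} [TopologicalSpace S] [ChartedSpace ℂ S]

lemma PHMap.continuousU {J : LeafwiseACS (Fin n → ℂ) (Fin k → ℝ)} (u : PHMap J U S) : Continuous u.u :=
  continuous_subtype_val.comp u.proper.continuous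

lemma PHMap.hol (u : PHMap (stdACS n k) U S) : HolOn (fun p => (u.u p).1) := by
  intro φ hφ z hz
  have hd : DifferentiableAt ℝ (u.u ∘ φ.symm) z :=
    ((u.smooth φ hφ).differentiableOn (by simp) z hz).differentiableAt
      (φ.open_target.mem_nhds hz)
  have hfst : HasFDerivAt ((fun p => (u.u p).1) ∘ φ.symm)
      ((ContinuousLinearMap.fst ℝ (Fin n → ℂ) (Fin k → ℝ)).comp (fderiv ℝ (u.u ∘ φ.symm) z)) z :=
    (ContinuousLinearMap.fst ℝ (Fin n → ℂ) (Fin k → ℝ)).hasFDerivAt.comp z hd.hasFDerivAt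
  refine DifferentiableAt.differentiableWithinAt ?_
  rw [differentiableAt_complex_iff_differentiableAt_real]
  refine ⟨hfst.differentiableAt, ?_⟩
  rw [hfst.fderiv]
  have := u.holo φ hφ z hz 1
  rw [mul_one, stdACS_apply] at this
  simpa using this

/-- A pseudoholomorphic map is nowhere locally constant. -/
lemma PHMap.not_eventually_const [ConnectedSpace S] (u : PHMap (stdACS n k) U S) (p : S) :
    ¬ ∀ᶠ q in 𝓝 p, u.u q = u.u p := by
  intro h
  obtain ⟨s, hs⟩ := u.leaf
  have h1 : ∀ q, (u.u q).1 = (u.u p).1 := fun q =>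
    u.hol.eq_const (h.mono fun q hq => by rw [hq]) q
  have h2 : ∀ q, u.u q = u.u p := fun q => Prod.ext (h1 q) (by rw [hs q, hs p])
  obtain ⟨p', -, φ, hφ, hp', hne⟩ := u.somewhere_injective
  apply hne
  have : (u.u ∘ φ.symm) = fun _ => u.u p := by
    ext1 z; exact h2 _
  rw [chartDeriv, this]
  simp

section positivity

variable {χ : Amb n k → ℝ}

lemma pullbackCoeff_kahler (u : PHMap (stdACS n k) U S) {α : Amb n k → Cov (Amb n k) 2}
    (hα : ∀ y, α y = χ y • kahler n k) {φ : OpenPartialHomeomorph S ℂ} (hφ : φ ∈ atlas ℂ S)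
    {z : ℂ} (hz : z ∈ φ.target) :
    pullbackCoeff u.u α φ z = χ (u.u (φ.symm z)) *
      ∑ j, Complex.normSq ((fderiv ℝ (u.u ∘ φ.symm) z 1).1 j) := by
  unfold pullbackCoeff evalForm chartDeriv
  rw [hα, ContinuousAlternatingMap.smul_apply, smul_eq_mul]
  congr 1
  apply kahler_J
  have := u.holo φ hφ z hz 1
  rw [mul_one, stdACS_apply] at this
  exact this

/-- the chart integrand is nonnegative -/
lemma integrand_nonneg (u : PHMap (stdACS n k) U S) {α : Amb n k → Cov (Amb n k) 2}
    (hα : ∀ y, α y = χ y • kahler n k) (hχ : ∀ y, 0 ≤ χ y) {ι : Type}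
    (ρ : PartitionOfUnity ι S univ) (i : ι)
    {φ : OpenPartialHomeomorph S ℂ} (hφ : φ ∈ atlas ℂ S)
    {z : ℂ} (hz : z ∈ φ.target) :
    0 ≤ ρ i (φ.symm z) * pullbackCoeff u.u α φ z := by
  rw [pullbackCoeff_kahler u hα hφ hz]
  have h1 : 0 ≤ ρ i (φ.symm z) := ρ.nonneg i _
  have h2 : 0 ≤ ∑ j, Complex.normSq ((fderiv ℝ (u.u ∘ φ.symm) z 1).1 j) :=
    Finset.sum_nonneg fun j _ => Complex.normSq_nonneg _
  have h3 := hχ (u.u (φ.symm z))
  positivity

/-- the chart integrand is continuous -/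
lemma integrand_continuousOn (u : PHMap (stdACS n k) U S) {α : Amb n k → Cov (Amb n k) 2}
    (hα : ∀ y, α y = χ y • kahler n k) (hχ : Continuous χ) {ι : Type}
    (ρ : PartitionOfUnity ι S univ) (i : ι)
    {φ : OpenPartialHomeomorph S ℂ} (hφ : φ ∈ atlas ℂ S) :
    ContinuousOn (fun z => ρ i (φ.symm z) * pullbackCoeff u.u α φ z) φ.target := by
  have h1 : ContinuousOn (fun z => ρ i (φ.symm z)) φ.target :=
    (ρ i).continuous.comp_continuousOn φ.continuousOn_symm
  have h2 : ContinuousOn (fun z => χ (u.u (φ.symm z))) φ.target :=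
    (hχ.comp u.continuousU).comp_continuousOn φ.continuousOn_symm
  have h3 : ContinuousOn (fderiv ℝ (u.u ∘ φ.symm)) φ.target :=
    (u.smooth φ hφ).continuousOn_fderiv_of_isOpen φ.open_target (by simp)
  have h4 : ContinuousOn (fun z => ∑ j, Complex.normSq ((fderiv ℝ (u.u ∘ φ.symm) z 1).1 j))
      φ.target := by
    have h5 : Continuous (fun D : ℂ →L[ℝ] Amb n k => ∑ j, Complex.normSq ((D 1).1 j)) := by
      refine continuous_finsetSum _ fun j _ => ?_
      refine Complex.continuous_normSq.comp ?_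
      have : Continuous fun D : ℂ →L[ℝ] Amb n k => D 1 := by fun_prop
      fun_prop
    exact h5.comp_continuousOn h3
  refine (h1.mul (h2.mul h4)).congr fun z hz => ?_
  simp only [pullbackCoeff_kahler u hα hφ hz, Pi.mul_apply]

/-- the chart integrand is integrable -/
lemma integrand_integrable (u : PHMap (stdACS n k) U S) {α : Amb n k → Cov (Amb n k) 2}
    (hα : ∀ y, α y = χ y • kahler n k) (hχ : Continuous χ) {ι : Type}
    (ρ : PartitionOfUnity ι S univ) (i : ι)
    {φ : OpenPartialHomeomorph S ℂ} (hφ : φ ∈ atlas ℂ S) (hc : HasCompactSupport (ρ i))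
    (hs : tsupport (ρ i) ⊆ φ.source) :
    IntegrableOn (fun z => ρ i (φ.symm z) * pullbackCoeff u.u α φ z) φ.target := by
  set K : Set ℂ := φ '' (tsupport (ρ i)) with hK
  have hKc : IsCompact K := hc.isCompact.image_of_continuousOn (φ.continuousOn.mono hs)
  have hKt : K ⊆ φ.target := by
    rintro _ ⟨q, hq, rfl⟩
    exact φ.map_source (hs hq)
  have h1 : IntegrableOn (fun z => ρ i (φ.symm z) * pullbackCoeff u.u α φ z) K :=
    ((integrand_continuousOn u hα hχ ρ i hφ).mono hKt).integrableOn_compact hKc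
  refine h1.of_forall_sdiff_eq_zero φ.open_target.measurableSet ?_
  rintro z ⟨hz, hzK⟩
  have : ρ i (φ.symm z) = 0 := by
    by_contra hne
    apply hzK
    refine ⟨φ.symm z, subset_tsupport _ hne, ?_⟩
    exact φ.right_inv hz
  simp [this]

/-- Positivity. -/
lemma current_nonneg (u : PHMap (stdACS n k) U S) {c' : Current (Amb n k) 2 U}
    (hc' : IsIntegrationCurrent u.u c') {α : Form (Amb n k) 2 U}
    (hα : ∀ y, α y = χ y • kahler n k) (hχ : ∀ y, 0 ≤ χ y) : 0 ≤ pair c' α := by
  obtain ⟨ι, ρ, φ, hφ, -, -, h⟩ := hc'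
  rw [h α, integralPullback]
  refine finsum_nonneg fun i => ?_
  refine setIntegral_nonneg (φ i).open_target.measurableSet fun z hz => ?_
  exact integrand_nonneg u hα hχ ρ i (hφ i) hz

/-- If `χ` vanishes along the curve, the current vanishes on `χ ω₀`. -/
lemma current_eq_zero (u : PHMap (stdACS n k) U S) {c' : Current (Amb n k) 2 U}
    (hc' : IsIntegrationCurrent u.u c') {α : Form (Amb n k) 2 U}
    (hα : ∀ y, α y = χ y • kahler n k) (hχ : ∀ p, χ (u.u p) = 0) : pair c' α = 0 := by
  obtain ⟨ι, ρ, φ, hφ, -, -, h⟩ := hc'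
  rw [h α, integralPullback]
  have : ∀ i, ∫ z in (φ i).target, ρ i ((φ i).symm z) * pullbackCoeff u.u α (φ i) z = 0 := by
    intro i
    rw [setIntegral_congr_fun (g := fun _ => (0 : ℝ)) (φ i).open_target.measurableSet]
    · simp
    · intro z hz
      simp only
      rw [pullbackCoeff_kahler u hα (hφ i) hz, hχ]
      simp
  simp [this]

/-- Conversely, if the current vanishes on `χ ω₀`, `χ ≥ 0`, then `χ` vanishes along the curve. -/
lemma eq_zero_of_current_eq_zero [ConnectedSpace S] (u : PHMap (stdACS n k) U S)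
    {c' : Current (Amb n k) 2 U} (hc' : IsIntegrationCurrent u.u c') {α : Form (Amb n k) 2 U}
    (hα : ∀ y, α y = χ y • kahler n k) (hχ : ∀ y, 0 ≤ χ y) (hχc : Continuous χ)
    (h0 : pair c' α = 0) (p : S) : χ (u.u p) = 0 := by
  obtain ⟨ι, ρ, φ, hφ, hcpt, hsub, h⟩ := hc'
  rw [h α, integralPullback] at h0
  set F : ι → ℝ := fun i =>
    ∫ z in (φ i).target, ρ i ((φ i).symm z) * pullbackCoeff u.u α (φ i) z with hF
  have hFnonneg : ∀ i, 0 ≤ F i := fun i =>
    setIntegral_nonneg (φ i).open_target.measurableSet fun z hz =>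
      integrand_nonneg u hα hχ ρ i (hφ i) hz
  -- finiteness of the support of `F`
  set K : Set S := {q | u.u q ∈ tsupport (α : Amb n k → Cov (Amb n k) 2)} with hK
  have hKc : IsCompact K := by
    have h1 : IsCompact ({y : U | (y : Amb n k) ∈ tsupport (α : Amb n k → Cov (Amb n k) 2)}) := by
      rw [Subtype.isCompact_iff]
      have : (Subtype.val '' {y : U | (y : Amb n k) ∈ tsupport (α : Amb n k → Cov (Amb n k) 2)})
          = tsupport (α : Amb n k → Cov (Amb n k) 2) := by
        ext y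
        constructor
        · rintro ⟨y', hy', rfl⟩; exact hy'
        · intro hy; exact ⟨⟨y, α.tsupport_subset hy⟩, hy, rfl⟩
      rw [this]
      exact α.hasCompactSupport
    exact u.proper.isCompact_preimage h1
  have hfin : {i | (Function.support (ρ i) ∩ K).Nonempty}.Finite :=
    ρ.locallyFinite.finite_nonempty_inter_compact hKc
  have hsupp : (Function.support F).Finite := by
    refine hfin.subset fun i hi => ?_
    by_contra hne
    apply hi
    simp only [hF]
    rw [setIntegral_congr_fun (g := fun _ => (0 : ℝ)) (φ i).open_target.measurableSet]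
    · simp
    · intro z hz
      simp only
      by_cases hρ : ρ i ((φ i).symm z) = 0
      · simp [hρ]
      · have hnK : (φ i).symm z ∉ K := fun hK' => hne ⟨_, hρ, hK'⟩
        have : α (u.u ((φ i).symm z)) = 0 := image_eq_zero_of_notMem_tsupport hnK
        simp [pullbackCoeff, evalForm, this]
  have hFzero : ∀ i, F i = 0 := by
    intro i
    have h1 : F i ≤ ∑ᶠ i, F i := single_le_finsum i hsupp hFnonneg
    have h2 : ∑ᶠ i, F i = 0 := h0
    exact le_antisymm (by linarith) (hFnonneg i)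
  by_contra hpos
  have hpos' : 0 < χ (u.u p) := lt_of_le_of_ne (hχ _) (Ne.symm hpos)
  obtain ⟨i, hi⟩ : ∃ i, 0 < ρ i p := ρ.exists_pos (mem_univ p)
  set O : Set S := {q | 0 < ρ i q ∧ 0 < χ (u.u q)} with hO
  have hOopen : IsOpen O :=
    (isOpen_lt continuous_const (ρ i).continuous).inter
      (isOpen_lt continuous_const (hχc.comp u.continuousU))
  have hOsrc : O ⊆ (φ i).source := fun q hq =>
    hsub i (subset_tsupport _ (ne_of_gt hq.1))
  have hzero : EqOn (fun z => ρ i ((φ i).symm z) * pullbackCoeff u.u α (φ i) z) (fun _ => 0)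
      (φ i).target := by
    have h1 := (setIntegral_eq_zero_iff_of_nonneg_ae
      (ae_restrict_of_forall_mem (φ i).open_target.measurableSet fun z hz =>
        integrand_nonneg u hα hχ ρ i (hφ i) hz)
      (integrand_integrable u hα hχc ρ i (hφ i) (hcpt i) (hsub i))).1 (hFzero i)
    exact Measure.eqOn_open_of_ae_eq h1 (φ i).open_target
      (integrand_continuousOn u hα hχc ρ i (hφ i)) continuousOn_const
  -- the derivative of the first component vanishes on `O`
  set w : S → (Fin n → ℂ) := fun q => (u.u q).1 with hw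
  have hder : ∀ q ∈ O, fderiv ℂ (w ∘ (φ i).symm) (φ i q) = 0 := by
    intro q hq
    have hqs := hOsrc hq
    have hqt : φ i q ∈ (φ i).target := (φ i).map_source hqs
    have h1 := hzero hqt
    simp only at h1
    rw [pullbackCoeff_kahler u hα (hφ i) hqt, (φ i).left_inv hqs] at h1
    have h2 : ∑ j, Complex.normSq ((fderiv ℝ (u.u ∘ (φ i).symm) (φ i q) 1).1 j) = 0 := by
      rcases mul_eq_zero.1 h1 with h | h
      · exact absurd h (ne_of_gt hq.1)
      · rcases mul_eq_zero.1 h with h | h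
        · exact absurd h (ne_of_gt hq.2)
        · exact h
    have h3 : ∀ j, (fderiv ℝ (u.u ∘ (φ i).symm) (φ i q) 1).1 j = 0 := by
      intro j
      have := (Finset.sum_eq_zero_iff_of_nonneg fun j _ => Complex.normSq_nonneg _).1 h2 j
        (Finset.mem_univ j)
      exact Complex.normSq_eq_zero.1 this
    have hd : DifferentiableAt ℝ (u.u ∘ (φ i).symm) (φ i q) :=
      ((u.smooth (φ i) (hφ i)).differentiableOn (by simp) _ hqt).differentiableAt
        ((φ i).open_target.mem_nhds hqt)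
    have hfst : HasFDerivAt (w ∘ (φ i).symm)
        ((ContinuousLinearMap.fst ℝ (Fin n → ℂ) (Fin k → ℝ)).comp
          (fderiv ℝ (u.u ∘ (φ i).symm) (φ i q))) (φ i q) :=
      (ContinuousLinearMap.fst ℝ (Fin n → ℂ) (Fin k → ℝ)).hasFDerivAt.comp _ hd.hasFDerivAt
    have hdC : DifferentiableAt ℂ (w ∘ (φ i).symm) (φ i q) :=
      ((u.hol (φ i) (hφ i)) _ hqt).differentiableAt ((φ i).open_target.mem_nhds hqt)
    have h4 : fderiv ℂ (w ∘ (φ i).symm) (φ i q) 1 = 0 := by
      have h5 := hdC.fderiv_restrictScalars ℝ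
      have h6 : (fderiv ℂ (w ∘ (φ i).symm) (φ i q)).restrictScalars ℝ 1 = 0 := by
        rw [← h5, hfst.fderiv]
        ext j
        simp only [ContinuousLinearMap.comp_apply, ContinuousLinearMap.coe_fst', Pi.zero_apply]
        exact h3 j
      simpa using h6
    ext1
    simpa using h4
  -- so `w` is locally constant at `p`
  have hpO : p ∈ O := ⟨hi, hpos'⟩
  have hps := hOsrc hpO
  have hpt : φ i p ∈ (φ i).target := (φ i).map_source hps
  have hN : (φ i).target ∩ (φ i).symm ⁻¹' O ∈ 𝓝 (φ i p) := by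
    refine inter_mem ((φ i).open_target.mem_nhds hpt) ?_
    refine ((φ i).symm.continuousAt hpt).preimage_mem_nhds ?_
    rw [(φ i).left_inv hps]
    exact hOopen.mem_nhds hpO
  obtain ⟨r, hr, hball⟩ := Metric.mem_nhds_iff.1 hN
  have hconst : ∀ z ∈ Metric.ball (φ i p) r, (w ∘ (φ i).symm) z = (w ∘ (φ i).symm) (φ i p) := by
    intro z hz
    refine Metric.isOpen_ball.is_const_of_fderiv_eq_zero (𝕜 := ℂ)
      (convex_ball _ _).isPreconnected
      ((u.hol (φ i) (hφ i)).mono fun x hx => (hball hx).1) ?_ hz (Metric.mem_ball_self hr)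
    intro x hx
    have := hder _ (hball hx).2
    rw [(φ i).right_inv (hball hx).1] at this
    simpa using this
  apply u.not_eventually_const p
  have h7 : (φ i).source ∩ (φ i) ⁻¹' (Metric.ball (φ i p) r) ∈ 𝓝 p :=
    inter_mem ((φ i).open_source.mem_nhds hps)
      (((φ i).continuousAt hps).preimage_mem_nhds (Metric.ball_mem_nhds _ hr))
  obtain ⟨s, hs⟩ := u.leaf
  filter_upwards [h7] with q hq
  have h8 := hconst _ hq.2
  simp only [Function.comp_apply, (φ i).left_inv hq.1, (φ i).left_inv hps] at h8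
  exact Prod.ext h8 (by rw [hs q, hs p])

end positivity

end Run7.h203.LeafCyc
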