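import Mathlib

/-!
Definitions for leafwise complex cycles and pseudoholomorphic curves on a product
`M = L × N` of two finite dimensional real vector spaces, foliated by the leaves `L × {s}`, with
an arbitrary smooth leafwise almost complex structure.
-/

open MeasureTheory Set TopologicalSpace
open scoped Manifold ContDiff Topology

namespace Run7.h203.LeafCyc

section currents

variable (E : Type) [NormedAddCommGroup E] [NormedSpace ℝ E]

/-- Alternating `p`-linear forms on `E` (that is, `Λᵖ T*_y E` for every point `y`). -/
abbrev Cov (p : ℕ) : Type := E [⋀^Fin p]→L[ℝ] ℝ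

/-- Smooth `p`-forms on `E` with compact support contained in the open set `U`, with the usual
(LF) topology of test functions. -/
abbrev Form (p : ℕ) (U : Opens E) : Type := TestFunction U (Cov E p) ⊤

/-- `p`-currents on `U`: continuous linear functionals on the space of compactly supported smooth
`p`-forms on `U`, with the weak topology (pointwise convergence on forms). -/
abbrev Current (p : ℕ) (U : Opens E) : Type := WeakDual ℝ (Form E p U)

/-- the whole space, as an open set -/
abbrev whole : Opens E := ⊤

/-- Compactly supported smooth `p`-forms on the whole space. -/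
abbrev GForm (p : ℕ) : Type := Form E p (whole E)

/-- `p`-currents on the whole space. -/
abbrev GCurrent (p : ℕ) : Type := Current E p (whole E)

/-- Bivectors at a point, as linear functionals on alternating `2`-forms
(`Λ² T_y = (Λ² T*_y)*`, the space being finite dimensional). -/
abbrev Bivec : Type := Cov E 2 →L[ℝ] ℝ

variable {E}

/-- the value `α_y (v, w)` of a `2`-form -/
noncomputable def evalForm (α : E → Cov E 2) (y v w : E) : ℝ := α y ![v, w]

/-- the value `c (α)` of a current -/
noncomputable def pair {p : ℕ} {U : Opens E} (c : Current E p U) (α : Form E p U) : ℝ := c α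

theorem contDiff_extDeriv_form {p : ℕ} {U : Opens E} (β : Form E p U) :
    ContDiff ℝ ∞ (extDeriv (β : E → Cov E p)) := by
  have h : ContDiff ℝ ∞ (fderiv ℝ (β : E → Cov E p)) :=
    β.contDiff.fderiv_right (by simp)
  exact (ContinuousAlternatingMap.alternatizeUncurryFinCLM ℝ E ℝ).contDiff.comp h

theorem hasCompactSupport_extDeriv_form {p : ℕ} {U : Opens E} (β : Form E p U) :
    HasCompactSupport (extDeriv (β : E → Cov E p)) := by
  have h : HasCompactSupport (fderiv ℝ (β : E → Cov E p)) :=
    β.hasCompactSupport.fderiv ℝ
  exact h.comp_left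
    (g := ContinuousAlternatingMap.alternatizeUncurryFinCLM ℝ E ℝ) (map_zero _)

theorem tsupport_extDeriv_form_subset {p : ℕ} {U : Opens E} (β : Form E p U) :
    tsupport (extDeriv (β : E → Cov E p)) ⊆ U := by
  refine Subset.trans ?_ ((tsupport_fderiv_subset ℝ
    (f := (β : E → Cov E p))).trans β.tsupport_subset)
  exact tsupport_comp_subset
    (g := ContinuousAlternatingMap.alternatizeUncurryFinCLM ℝ E ℝ) (map_zero _) _

/-- The exterior derivative `Ωᵖ_c(U) → Ωᵖ⁺¹_c(U)`. -/
noncomputable def extD {p : ℕ} {U : Opens E} (β : Form E p U) : Form E (p + 1) U where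
  toFun := extDeriv (β : E → Cov E p)
  contDiff' := contDiff_extDeriv_form β
  hasCompactSupport' := hasCompactSupport_extDeriv_form β
  tsupport_subset' := tsupport_extDeriv_form_subset β

/-- A current `c` is a cycle if its boundary `∂c : β ↦ c (dβ)` vanishes. -/
def IsCycle {p : ℕ} {U : Opens E} (c : Current E (p + 1) U) : Prop :=
  ∀ β : Form E p U, pair c (extD β) = 0

/-- The closed convex cone generated by a set `s`: the closure of the set of all finite linear
combinations of elements of `s` with nonnegative coefficients. -/
def closedCone {V : Type} [AddCommMonoid V] [Module ℝ V] [TopologicalSpace V] (s : Set V) :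
    Set V :=
  closure {x | ∃ (N : ℕ) (a : Fin N → ℝ) (w : Fin N → V),
    (∀ i, 0 ≤ a i) ∧ (∀ i, w i ∈ s) ∧ x = ∑ i, a i • w i}

/-- The closed convex cone generated by a set of bivectors. -/
def bivecCone (s : Set (Bivec E)) : Set (Bivec E) := closedCone s

/-- The closed convex cone generated by a set of currents. -/
def currentCone {p : ℕ} {U : Opens E} (s : Set (Current E p U)) : Set (Current E p U) :=
  closedCone s

/-- The bivector `v ∧ w`, acting on `2`-forms by `ω ↦ ω (v, w)`. -/
noncomputable def wedge (v w : E) : Bivec E :=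
  ContinuousAlternatingMap.apply ℝ E ℝ ![v, w]

/-- `c` is the Dirac current `α ↦ α_y (w)` of the bivector `w` at `y`. -/
def IsDirac (y : E) (w : Bivec E) (c : GCurrent E 2) : Prop :=
  ∀ α : GForm E 2, pair c α = w (α y)

end currents

section foliation

variable (L N : Type) [NormedAddCommGroup L] [NormedSpace ℝ L]
  [NormedAddCommGroup N] [NormedSpace ℝ N]

/-- A smooth leafwise almost complex structure on `M = L × N`, foliated by the leaves `L × {s}`:
a smooth field of endomorphisms `J_y` of the tangent space `L` of the leaf through `y`, with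
`J_y² = -1`. -/
structure LeafwiseACS where
  /-- the endomorphism `J_y` of the tangent space of the leaf through `y` -/
  J : L × N → (L →L[ℝ] L)
  smooth : ContDiff ℝ ∞ J
  sq : ∀ y v, J y (J y v) = -v

variable {L N}

/-- a tangent vector of a leaf as a tangent vector of `M = L × N` -/
def tang (v : L) : L × N := (v, 0)

/-- The structure cone `C_y ⊆ Λ² T_y M` of `J`: the closed convex cone generated by the bivectors
`v ∧ J v`, `v` tangent to the leaf through `y`. -/
def structureCone (J : LeafwiseACS L N) (y : L × N) : Set (Bivec (L × N)) :=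
  bivecCone {w | ∃ v : L, w = wedge (tang v) (tang (J.J y v))}

/-- `C`-currents on `M`: elements of the closed convex cone, in the space of `2`-currents on `M`,
generated by the Dirac currents of elements of the structure cones `C_y`. -/
def IsStructureCurrent (J : LeafwiseACS L N) (c : GCurrent (L × N) 2) : Prop :=
  c ∈ currentCone {c' | ∃ y, ∃ w ∈ structureCone J y, IsDirac y w c'}

/-- the derivative, at `z`, of the map `u` read in the chart `φ` -/
noncomputable def chartDeriv {S : Type} [TopologicalSpace S] (u : S → L × N)
    (φ : OpenPartialHomeomorph S ℂ) (z : ℂ) : ℂ →L[ℝ] L × N := fderiv ℝ (u ∘ φ.symm) z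

/-- `u : S → L × N` is smooth and satisfies `du ∘ j = J ∘ du`, in the charts of `S`. -/
def IsJHolomorphic (J : LeafwiseACS L N) {S : Type} [TopologicalSpace S] [ChartedSpace ℂ S]
    (u : S → L × N) : Prop :=
  ∀ φ ∈ atlas ℂ S, ContDiffOn ℝ ∞ (u ∘ φ.symm) φ.target ∧ ∀ z ∈ φ.target, ∀ h : ℂ,
    (chartDeriv u φ z (Complex.I * h)).1 = J.J (u (φ.symm z)) (chartDeriv u φ z h).1

/-- `u` is somewhere injective: for some `p`, `du(p) ≠ 0` and `u⁻¹(u(p)) = {p}`. -/
def IsSomewhereInjective {S : Type} [TopologicalSpace S] [ChartedSpace ℂ S]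
    (u : S → L × N) : Prop :=
  ∃ p, (∀ q, u q = u p → q = p) ∧ ∃ φ ∈ atlas ℂ S, p ∈ φ.source ∧ chartDeriv u φ (φ p) ≠ 0

/-- A map `u` from a surface `S` (with complex charts) to the open set `U ⊆ M` that is proper,
somewhere injective, has its image in one leaf, and satisfies `du ∘ j = J ∘ du`. -/
structure PHMap (J : LeafwiseACS L N) (U : Opens (L × N)) (S : Type)
    [TopologicalSpace S] [ChartedSpace ℂ S] where
  /-- the map itself -/
  u : S → L × N
  mem : ∀ p, u p ∈ U
  proper : IsProperMap (fun p => (⟨u p, mem p⟩ : U))
  leaf : ∃ s : N, ∀ p, (u p).2 = s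
  holomorphic : IsJHolomorphic J u
  somewhere_injective : IsSomewhereInjective u

/-- The pull-back of the `2`-form `α` by `u`, in the chart `φ`: the coefficient of `dx ∧ dy`. -/
noncomputable def pullbackCoeff {S : Type} [TopologicalSpace S]
    (u : S → L × N) (α : L × N → Cov (L × N) 2) (φ : OpenPartialHomeomorph S ℂ) (z : ℂ) : ℝ :=
  evalForm α (u (φ.symm z)) (chartDeriv u φ z 1) (chartDeriv u φ z Complex.I)

/-- The integral of `u^* α` over `S`, computed with a partition of unity `ρ` and charts `φ`. -/
noncomputable def integralPullback {S : Type} [TopologicalSpace S]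
    (u : S → L × N) (α : L × N → Cov (L × N) 2) {ι : Type} (ρ : PartitionOfUnity ι S univ)
    (φ : ι → OpenPartialHomeomorph S ℂ) : ℝ :=
  ∑ᶠ i, ∫ z in (φ i).target, ρ i ((φ i).symm z) * pullbackCoeff u α (φ i) z

/-- `c' = (α ↦ ∫_S u^* α)`, the integral being computed with a (continuous, compactly supported)
partition of unity `ρ` subordinate to a family `φ` of charts of `S`. -/
def IsIntegrationCurrent {U : Opens (L × N)} {S : Type} [TopologicalSpace S]
    [ChartedSpace ℂ S] (u : S → L × N) (c' : Current (L × N) 2 U) : Prop :=
  ∃ (ι : Type) (ρ : PartitionOfUnity ι S univ) (φ : ι → OpenPartialHomeomorph S ℂ),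
    (∀ i, φ i ∈ atlas ℂ S) ∧ (∀ i, HasCompactSupport (ρ i)) ∧
    (∀ i, tsupport (ρ i) ⊆ (φ i).source) ∧
    ∀ α : Form (L × N) 2 U, pair c' α = integralPullback u α ρ φ

/-- The set `P_U` of (integration currents of) pseudoholomorphic curves in `U`: images `u(S)` of
proper, somewhere injective maps `u : S → U` from connected Riemann surfaces `S`, with image in
one leaf and `du ∘ j = J ∘ du`. -/
def curves (J : LeafwiseACS L N) (U : Opens (L × N)) : Set (Current (L × N) 2 U) :=
  {c' | ∃ (S : Type) (_ : TopologicalSpace S) (_ : T2Space S) (_ : SecondCountableTopology S)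
    (_ : ConnectedSpace S) (_ : ChartedSpace ℂ S) (_ : IsManifold 𝓘(ℂ, ℂ) ω S)
    (u : PHMap J U S), IsIntegrationCurrent u.u c'}

/-- `P_U` as a space, with the topology induced from the space of `2`-currents on `U` -/
def CurveSpace (J : LeafwiseACS L N) (U : Opens (L × N)) : Type :=
  {c' : Current (L × N) 2 U // c' ∈ curves J U}

noncomputable instance (J : LeafwiseACS L N) (U : Opens (L × N)) :
    TopologicalSpace (CurveSpace J U) :=
  instTopologicalSpaceSubtype

noncomputable instance (J : LeafwiseACS L N) (U : Opens (L × N)) :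
    MeasurableSpace (CurveSpace J U) := borel (CurveSpace J U)

/-- the value `c'(α)`, as a function of `c' ∈ P_U` -/
noncomputable def evalCurve {J : LeafwiseACS L N} {U : Opens (L × N)} (α : Form (L × N) 2 U)
    (c' : CurveSpace J U) : ℝ := pair c'.1 α

/-- The current `c`, restricted to the open set `U`, is the superposition
`α ↦ ∫_{P_U} c'(α) dν(c')`, `α ∈ Ω²_c(U)` (extended by zero to `α' ∈ Ω²_c(M)`), the integrals being
absolutely convergent. -/
def Represents {J : LeafwiseACS L N} {U : Opens (L × N)} (ν : Measure (CurveSpace J U))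
    (c : GCurrent (L × N) 2) : Prop :=
  ∀ (α : Form (L × N) 2 U) (α' : GForm (L × N) 2), (∀ y, α' y = α y) →
    Integrable (evalCurve α) ν ∧ pair c α' = ∫ c', evalCurve α c' ∂ν

/-- `c` is a `C`-cycle. -/
def IsStructureCycle (J : LeafwiseACS L N) (c : GCurrent (L × N) 2) : Prop :=
  IsStructureCurrent J c ∧ IsCycle c

/-- On some open neighbourhood `U` of `x`, the current `c` is a superposition of pseudoholomorphic
curves, for some (nonnegative, Borel) measure `ν` on `P_U`. -/
def IsLocalSuperpositionAt (J : LeafwiseACS L N) (c : GCurrent (L × N) 2) (x : L × N) : Prop :=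
  ∃ U : Opens (L × N), x ∈ U ∧ ∃ ν : Measure (CurveSpace J U), Represents ν c

/-- For the foliation of `L × N` by the leaves `L × {s}` and the standard leafwise complex
structure `J v = i v` (`L` being a complex vector space), there are a `C`-cycle `c` and a point `x`
such that on no open neighbourhood of `x` is `c` a superposition of pseudoholomorphic curves. -/
def HasNonSuperposableCycle (L N : Type) [NormedAddCommGroup L] [NormedSpace ℝ L]
    [NormedSpace ℂ L] [NormedAddCommGroup N] [NormedSpace ℝ N] : Prop :=
  ∃ J : LeafwiseACS L N, (∀ y v, J.J y v = Complex.I • v) ∧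
    ∃ c : GCurrent (L × N) 2, IsStructureCycle J c ∧ ∃ x, ¬ IsLocalSuperpositionAt J c x

end foliation

end Run7.h203.LeafCyc
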