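import Pool.Agent.Run7.h203.LeafCyc.Defs

/-!
The current `α ↦ ∫ w (α_y) dμ(y)` of a locally finite measure `μ` and a bivector `w`, and the
fact that it is a limit of positive combinations of Dirac currents.
-/

open MeasureTheory Set TopologicalSpace Filter
open scoped Manifold ContDiff Topology

namespace Run7.h203.LeafCyc

section

variable {E : Type} [NormedAddCommGroup E] [NormedSpace ℝ E] [MeasurableSpace E] [BorelSpace E]
  [FiniteDimensional ℝ E]

/-- The Dirac current `α ↦ α_y (w)` of a bivector `w` at `y`. -/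
noncomputable def dirac (U : Opens E) (y : E) (w : Bivec E) : Current E 2 U :=
  StrongDual.toWeakDual (w ∘L ((BoundedContinuousFunction.evalCLM ℝ y) ∘L
    (TestFunction.toBoundedContinuousFunctionCLM ℝ : Form E 2 U →L[ℝ] _)))

omit [MeasurableSpace E] [BorelSpace E] [FiniteDimensional ℝ E] in
lemma isDirac_dirac (y : E) (w : Bivec E) : IsDirac y w (dirac ⊤ y w) := fun _ => rfl

/-- The current `α ↦ ∫ w (α_y) dμ(y)`. -/
noncomputable def intCurrent (μ : Measure E) (w : Bivec E) : Current E 2 ⊤ :=
  StrongDual.toWeakDual (TestFunction.integralAgainstBilinCLM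
    ((ContinuousLinearMap.mul ℝ ℝ).comp w) μ (fun _ => (1 : ℝ)))

lemma intCurrent_apply (μ : Measure E) [IsFiniteMeasureOnCompacts μ] (w : Bivec E)
    (α : Form E 2 ⊤) : intCurrent μ w α = ∫ y, w (α y) ∂μ := by
  have : ProperSpace E := FiniteDimensional.proper ℝ E
  have hloc : LocallyIntegrableOn (fun _ : E => (1 : ℝ)) ((⊤ : Opens E) : Set E) μ :=
    (continuous_const.locallyIntegrable).locallyIntegrableOn _
  have h2 := TestFunction.integralAgainstBilinCLM_eq_integral (n := ⊤)
    (B := ((ContinuousLinearMap.mul ℝ ℝ).comp w)) hloc (f := α)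
  have h3 : intCurrent μ w α = ∫ y, w (α y) * 1 ∂μ := h2
  rw [h3]
  simp only [mul_one]

/-- The set of nonnegative combinations of elements of `s`. -/
def combos {V : Type} [AddCommMonoid V] [Module ℝ V] (s : Set V) : Set V :=
  {x | ∃ (N : ℕ) (a : Fin N → ℝ) (w : Fin N → V),
    (∀ i, 0 ≤ a i) ∧ (∀ i, w i ∈ s) ∧ x = ∑ i, a i • w i}

lemma closedCone_eq {V : Type} [AddCommMonoid V] [Module ℝ V] [TopologicalSpace V] (s : Set V) :
    closedCone s = closure (combos s) := rfl

lemma combos_zero {V : Type} [AddCommMonoid V] [Module ℝ V] (s : Set V) : (0 : V) ∈ combos s :=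
  ⟨0, Fin.elim0, Fin.elim0, fun i => i.elim0, fun i => i.elim0, by simp⟩

lemma subset_combos {V : Type} [AddCommMonoid V] [Module ℝ V] (s : Set V) : s ⊆ combos s :=
  fun x hx => ⟨1, fun _ => 1, fun _ => x, fun _ => zero_le_one, fun _ => hx, by simp⟩

lemma combos_smul {V : Type} [AddCommMonoid V] [Module ℝ V] {s : Set V} {x : V}
    (hx : x ∈ combos s) {c : ℝ} (hc : 0 ≤ c) : c • x ∈ combos s := by
  obtain ⟨N, a, w, ha, hw, rfl⟩ := hx
  refine ⟨N, fun i => c * a i, w, fun i => mul_nonneg hc (ha i), hw, ?_⟩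
  rw [Finset.smul_sum]
  simp [mul_smul]

lemma combos_add {V : Type} [AddCommMonoid V] [Module ℝ V] {s : Set V} {x y : V}
    (hx : x ∈ combos s) (hy : y ∈ combos s) : x + y ∈ combos s := by
  obtain ⟨N, a, w, ha, hw, rfl⟩ := hx
  obtain ⟨N', a', w', ha', hw', rfl⟩ := hy
  refine ⟨N + N', Fin.append a a', Fin.append w w', ?_, ?_, ?_⟩
  · intro i
    refine Fin.addCases (fun i => ?_) (fun i => ?_) i
    · simpa using ha i
    · simpa using ha' i
  · intro i
    refine Fin.addCases (fun i => ?_) (fun i => ?_) i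
    · simpa using hw i
    · simpa using hw' i
  · rw [Fin.sum_univ_add]
    simp

lemma closedCone_add {V : Type} [AddCommMonoid V] [Module ℝ V] [TopologicalSpace V]
    [ContinuousAdd V] {s : Set V} {x y : V}
    (hx : x ∈ closedCone s) (hy : y ∈ closedCone s) : x + y ∈ closedCone s := by
  rw [closedCone_eq] at *
  exact map_mem_closure₂ continuous_add hx hy fun a ha b hb => combos_add ha hb

lemma combos_image {V V' : Type} [AddCommMonoid V] [Module ℝ V] [AddCommMonoid V'] [Module ℝ V']
    (f : V →ₗ[ℝ] V') {s : Set V} {x : V} (hx : x ∈ combos s) : f x ∈ combos (f '' s) := by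
  obtain ⟨N, a, w, ha, hw, rfl⟩ := hx
  refine ⟨N, a, fun i => f (w i), ha, fun i => ⟨_, hw i, rfl⟩, ?_⟩
  simp [map_sum]

lemma combos_image' {V V' : Type} [AddCommMonoid V] [Module ℝ V] [AddCommMonoid V'] [Module ℝ V']
    (f : V →ₗ[ℝ] V') {s : Set V} {x : V'} (hx : x ∈ combos (f '' s)) :
    ∃ y ∈ combos s, f y = x := by
  obtain ⟨N, a, w, ha, hw, rfl⟩ := hx
  choose v hv hv' using hw
  refine ⟨∑ i, a i • v i, ⟨N, a, v, ha, hv, rfl⟩, ?_⟩
  simp [map_sum, hv']

/-- finite dimensional approximation: the vector of integrals lies in the closed cone. -/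
lemma integral_mem_closure_combos {ι : Type} [Fintype ι] (μ : Measure E)
    [IsFiniteMeasureOnCompacts μ] (F : E → (ι → ℝ)) (hF : Continuous F)
    (hFc : HasCompactSupport F) :
    (∫ y, F y ∂μ) ∈ closure (combos (range F)) := by
  classical
  set C : Set (ι → ℝ) := closure (combos (range F)) with hC
  have hconv : Convex ℝ C := by
    apply Convex.closure
    intro x hx y hy a b ha hb _
    exact combos_add (combos_smul hx ha) (combos_smul hy hb)
  have hclosed : IsClosed C := isClosed_closure
  set K := tsupport F with hK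
  have hKc : IsCompact K := hFc
  have hint : ∫ y, F y ∂μ = ∫ y in K, F y ∂μ :=
    (setIntegral_eq_integral_of_forall_compl_eq_zero fun y hy =>
      image_eq_zero_of_notMem_tsupport hy).symm
  rw [hint]
  by_cases hzero : μ K = 0
  · rw [Measure.restrict_eq_zero.2 hzero, integral_zero_measure]
    exact subset_closure (combos_zero _)
  · have hfin : IsFiniteMeasure (μ.restrict K) := ⟨by
      rw [Measure.restrict_apply_univ]; exact hKc.measure_lt_top⟩
    have hne : NeZero (μ.restrict K) := ⟨by
      rw [Ne, Measure.restrict_eq_zero]; exact hzero⟩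
    have hFint : Integrable F (μ.restrict K) :=
      (hF.integrable_of_hasCompactSupport hFc).restrict
    have hav := hconv.average_mem (μ := μ.restrict K) (f := F) hclosed
      (Eventually.of_forall fun y => subset_closure (subset_combos _ ⟨y, rfl⟩)) hFint
    have h2 : ∫ y in K, F y ∂μ = (μ.restrict K).real univ • ⨍ y in K, F y ∂μ := by
      rw [measure_smul_average]
    rw [h2]
    have hsm : ∀ {c : ℝ}, 0 ≤ c → ∀ {x}, x ∈ C → c • x ∈ C := by
      intro c hc x hx
      exact map_mem_closure (continuous_const_smul c) hx fun a ha => combos_smul ha hc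
    exact hsm measureReal_nonneg hav

/-- The current of integration of a fixed bivector `w` against a measure is in the closed convex
cone generated by the Dirac currents of `w`. -/
lemma intCurrent_mem_closedCone (μ : Measure E) [IsFiniteMeasureOnCompacts μ] (w : Bivec E)
    {s : Set (Current E 2 ⊤)} (hs : ∀ y, dirac ⊤ y w ∈ s) :
    intCurrent μ w ∈ closedCone s := by
  rw [closedCone_eq]
  -- the topology of `WeakDual` is induced by evaluations
  have hind : Topology.IsInducing (fun (c : Current E 2 ⊤) (α : Form E 2 ⊤) => c α) :=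
    ⟨rfl⟩
  rw [hind.closure_eq_preimage_closure_image, mem_preimage, mem_closure_iff_nhds]
  intro V hV
  rw [nhds_pi, Filter.mem_pi] at hV
  obtain ⟨I, hI, t, ht, htV⟩ := hV
  have : Fintype I := hI.fintype
  -- the evaluation map at the forms in `I`
  let ev : Current E 2 ⊤ →ₗ[ℝ] (I → ℝ) :=
    { toFun := fun c α => c (α : Form E 2 ⊤)
      map_add' := fun _ _ => rfl
      map_smul' := fun _ _ => rfl }
  let F : E → (I → ℝ) := fun y α => w ((α : Form E 2 ⊤) y)
  have hF : Continuous F := by
    refine continuous_pi fun α => ?_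
    exact w.continuous.comp (α : Form E 2 ⊤).continuous
  have hFc : HasCompactSupport F := by
    have hK : IsCompact (⋃ α : I, tsupport ((α : Form E 2 ⊤) : E → Cov E 2)) :=
      isCompact_iUnion fun α => (α : Form E 2 ⊤).hasCompactSupport
    refine HasCompactSupport.intro hK ?_
    intro y hy
    ext α
    have h1 : y ∉ tsupport ((α : Form E 2 ⊤) : E → Cov E 2) := fun h =>
      hy (mem_iUnion.2 ⟨α, h⟩)
    show w ((α : Form E 2 ⊤) y) = 0
    rw [image_eq_zero_of_notMem_tsupport h1, map_zero]
  have hmem := integral_mem_closure_combos μ F hF hFc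
  have hevF : ev (intCurrent μ w) = ∫ y, F y ∂μ := by
    ext α
    have h1 : (∫ y, F y ∂μ) α = ∫ y, F y α ∂μ :=
      ((ContinuousLinearMap.proj (R := ℝ) (φ := fun _ : I => ℝ) α).integral_comp_comm
        (hF.integrable_of_hasCompactSupport hFc)).symm
    rw [h1]
    exact intCurrent_apply μ w α
  have hsub : combos (range F) ⊆ combos (ev '' s) := by
    rintro x ⟨N, a, v, ha, hv, rfl⟩
    refine ⟨N, a, v, ha, fun i => ?_, rfl⟩
    obtain ⟨y, hy⟩ := hv i
    exact ⟨dirac ⊤ y w, hs y, by rw [← hy]; rfl⟩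
  rw [← hevF] at hmem
  have hnb : (Set.univ.pi fun α : I => t α) ∈ 𝓝 (ev (intCurrent μ w)) := by
    rw [nhds_pi]
    exact Filter.pi_mem_pi Set.finite_univ fun α _ => ht α
  obtain ⟨x, hx1, hx2⟩ := mem_closure_iff_nhds.1 hmem _ hnb
  obtain ⟨c, hc, hcx⟩ := combos_image' ev (hsub hx2)
  refine ⟨fun α => c α, htV ?_, ⟨c, hc, rfl⟩⟩
  intro α hα
  have h3 := hx1 ⟨α, hα⟩ trivial
  rw [← hcx] at h3
  exact h3

end

end Run7.h203.LeafCyc
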