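import Pool.Agent.Run7.h203.LeafCyc.Curve

/-!
No pseudoholomorphic curve passes near the origin inside the tropical set
`{Re z = 0 ≥ Re w} ∪ {Re w = 0 ≥ Re z} ∪ {Re z = Re w ≥ 0}`.
-/

open MeasureTheory Set TopologicalSpace Filter
open scoped Manifold ContDiff Topology

namespace Run7.h203.LeafCyc

variable {m k : ℕ}

/-- the point `(z, w, 0, …, 0; 0)` -/
def emb (m k : ℕ) (z w : ℂ) : Amb (m + 2) k :=
  ((Fin.cons z (Fin.cons w (fun _ => 0)) : Fin (m + 2) → ℂ), 0)

@[simp] lemma emb_zero (z w : ℂ) : (emb m k z w).1 0 = z := rfl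
@[simp] lemma emb_one (z w : ℂ) : (emb m k z w).1 1 = w := rfl
@[simp] lemma emb_snd (z w : ℂ) : (emb m k z w).2 = 0 := rfl
@[simp] lemma emb_succ (z w : ℂ) (j : Fin m) : (emb m k z w).1 j.succ.succ = 0 := rfl

lemma emb_ext {y : Amb (m + 2) k} {z w : ℂ} (h0 : y.1 0 = z) (h1 : y.1 1 = w)
    (h2 : ∀ j : Fin m, y.1 j.succ.succ = 0) (h3 : y.2 = 0) : y = emb m k z w := by
  refine Prod.ext ?_ (by simpa using h3)
  ext j
  refine Fin.cases ?_ (fun j => ?_) j
  · simpa using h0
  · refine Fin.cases ?_ (fun j => ?_) j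
    · simpa using h1
    · simpa using h2 j

lemma emb_injective_iff {z w z' w' : ℂ} : emb m k z w = emb m k z' w' ↔ z = z' ∧ w = w' := by
  constructor
  · intro h
    exact ⟨by simpa using congrArg (fun y => y.1 0) h, by simpa using congrArg (fun y => y.1 1) h⟩
  · rintro ⟨rfl, rfl⟩; rfl

lemma emb_add (z w z' w' : ℂ) : emb m k (z + z') (w + w') = emb m k z w + emb m k z' w' := by
  symm
  apply emb_ext <;> simp

lemma emb_smul (c : ℝ) (z w : ℂ) : emb m k (c • z) (c • w) = c • emb m k z w := by
  symm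
  apply emb_ext <;> simp

/-- `emb` as a real linear map. -/
def embL (m k : ℕ) : ℂ × ℂ →ₗ[ℝ] Amb (m + 2) k where
  toFun p := emb m k p.1 p.2
  map_add' _ _ := emb_add _ _ _ _
  map_smul' _ _ := emb_smul _ _ _

lemma continuous_emb : Continuous (fun p : ℂ × ℂ => emb m k p.1 p.2) :=
  (embL m k).continuous_of_finiteDimensional

/-- The tropical condition. -/
def Trop (z w : ℂ) : Prop :=
  (z.re = 0 ∧ w.re ≤ 0) ∨ (w.re = 0 ∧ z.re ≤ 0) ∨ (z.re = w.re ∧ 0 ≤ z.re)

/-- The support of the tropical current. -/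
def tropSet (m k : ℕ) : Set (Amb (m + 2) k) := {y | ∃ z w, y = emb m k z w ∧ Trop z w}

lemma emb_mem_tropSet {z w : ℂ} : emb m k z w ∈ tropSet m k ↔ Trop z w := by
  constructor
  · rintro ⟨z', w', h, h'⟩
    obtain ⟨rfl, rfl⟩ := emb_injective_iff.1 h
    exact h'
  · intro h; exact ⟨z, w, rfl, h⟩

lemma eq_emb_of_mem {y : Amb (m + 2) k} (hy : y ∈ tropSet m k) :
    y = emb m k (y.1 0) (y.1 1) := by
  obtain ⟨z, w, rfl, -⟩ := hy
  simp

lemma trop_of_mem {y : Amb (m + 2) k} (hy : y ∈ tropSet m k) : Trop (y.1 0) (y.1 1) := by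
  obtain ⟨z, w, rfl, h⟩ := hy
  simpa using h

lemma isClosed_trop : IsClosed {p : ℂ × ℂ | Trop p.1 p.2} := by
  have c1 : Continuous (fun p : ℂ × ℂ => p.1.re) := Complex.continuous_re.comp continuous_fst
  have c2 : Continuous (fun p : ℂ × ℂ => p.2.re) := Complex.continuous_re.comp continuous_snd
  have h1 : IsClosed {p : ℂ × ℂ | p.1.re = 0 ∧ p.2.re ≤ 0} :=
    (isClosed_eq c1 continuous_const).inter (isClosed_le c2 continuous_const)
  have h2 : IsClosed {p : ℂ × ℂ | p.2.re = 0 ∧ p.1.re ≤ 0} :=
    (isClosed_eq c2 continuous_const).inter (isClosed_le c1 continuous_const)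
  have h3 : IsClosed {p : ℂ × ℂ | p.1.re = p.2.re ∧ 0 ≤ p.1.re} :=
    (isClosed_eq c1 c2).inter (isClosed_le continuous_const c1)
  exact h1.union (h2.union h3)

lemma isClosed_tropSet : IsClosed (tropSet m k) := by
  have h : tropSet m k = {y | y = emb m k (y.1 0) (y.1 1)} ∩
      (fun y : Amb (m + 2) k => (y.1 0, y.1 1)) ⁻¹' {p : ℂ × ℂ | Trop p.1 p.2} := by
    ext y
    constructor
    · intro hy; exact ⟨eq_emb_of_mem hy, trop_of_mem hy⟩
    · rintro ⟨h1, h2⟩
      exact ⟨_, _, h1, h2⟩
  rw [h]
  have hc : Continuous (fun y : Amb (m + 2) k => (y.1 0, y.1 1)) := by fun_prop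
  exact (isClosed_eq continuous_id (continuous_emb.comp hc)).inter (isClosed_trop.preimage hc)

section

variable {U : Opens (Amb (m + 2) k)} {S : Type} [TopologicalSpace S] [ChartedSpace ℂ S]
  [ConnectedSpace S]

/-- Key topological step: if inside the ball `D ⊆ U` the curve lies on the complex line `γ`, then
it contains the whole part of this line in `D`. -/
lemma line_subset_range (u : PHMap (stdACS (m + 2) k) U S) {D : Set (Amb (m + 2) k)}
    (hD : IsOpen D) (hDU : D ⊆ U) {γ : ℂ → Amb (m + 2) k} (hγ : Continuous γ)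
    (hinj : Function.Injective γ) {f : S → ℂ} (hf : HolOn f)
    (hfu : ∀ p, u.u p ∈ D → u.u p = γ (f p)) (hpre : IsPreconnected (γ ⁻¹' D))
    {p₀ : S} (hp₀ : u.u p₀ ∈ D) (η : ℂ) (hη : γ η ∈ D) : γ η ∈ range u.u := by
  set Ω : Set ℂ := γ ⁻¹' D with hΩ
  have hΩo : IsOpen Ω := hD.preimage hγ
  set B : Set ℂ := {η | γ η ∈ D ∧ γ η ∈ range u.u} with hB
  have hBo : IsOpen B := by
    rw [isOpen_iff_mem_nhds]
    rintro η ⟨hη1, p, hp⟩
    have hpD : u.u p ∈ D := by rw [hp]; exact hη1
    have hfp : f p = η := hinj (by rw [← hfu p hpD, hp])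
    have hN : {q | u.u q ∈ D} ∈ 𝓝 p := u.continuousU.continuousAt.preimage_mem_nhds
      (hD.mem_nhds hpD)
    rcases hf.eventually_const_or p with h | h
    · exfalso
      apply u.not_eventually_const p
      filter_upwards [h, hN] with q hq hq2
      rw [hfu q hq2, hq, ← hfu p hpD]
    · have h2 : f '' {q | u.u q ∈ D} ∈ 𝓝 η := by
        rw [← hfp]
        exact h (image_mem_map hN)
      refine mem_of_superset h2 ?_
      rintro _ ⟨q, hq, rfl⟩
      have hq' := hfu q hq
      refine ⟨?_, q, hq'⟩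
      show γ (f q) ∈ D
      rw [← hq']
      exact hq
  have hcl : IsOpen {η | γ η ∈ (U : Set (Amb (m + 2) k)) \ range u.u} := by
    have h1 : IsClosed (range (fun p => (⟨u.u p, u.mem p⟩ : U))) := u.proper.isClosedMap.isClosed_range
    have h2 : IsOpen ((Subtype.val : U → Amb (m + 2) k) ''
        (range (fun p => (⟨u.u p, u.mem p⟩ : U)))ᶜ) :=
      U.isOpen.isOpenMap_subtype_val _ h1.isOpen_compl
    have h3 : (Subtype.val : U → Amb (m + 2) k) ''
        (range (fun p => (⟨u.u p, u.mem p⟩ : U)))ᶜ =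
        (U : Set (Amb (m + 2) k)) \ range u.u := by
      ext y
      constructor
      · rintro ⟨y', hy', rfl⟩
        refine ⟨y'.2, ?_⟩
        rintro ⟨p, hp⟩
        exact hy' ⟨p, Subtype.ext hp⟩
      · rintro ⟨hy, hy'⟩
        refine ⟨⟨y, hy⟩, ?_, rfl⟩
        rintro ⟨p, hp⟩
        exact hy' ⟨p, congrArg Subtype.val hp⟩
    rw [h3] at h2
    exact h2.preimage hγ
  have hcover : Ω ⊆ B ∪ {η | γ η ∈ (U : Set (Amb (m + 2) k)) \ range u.u} := by
    intro η hη
    by_cases h : γ η ∈ range u.u
    · exact Or.inl ⟨hη, h⟩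
    · exact Or.inr ⟨hDU hη, h⟩
  have hdisj : Disjoint B {η | γ η ∈ (U : Set (Amb (m + 2) k)) \ range u.u} := by
    rw [Set.disjoint_left]
    rintro η ⟨-, h⟩ ⟨-, h'⟩
    exact h' h
  have hne : (Ω ∩ B).Nonempty := by
    refine ⟨f p₀, ?_, ?_, ?_⟩
    · show γ (f p₀) ∈ D
      rw [← hfu p₀ hp₀]; exact hp₀
    · rw [← hfu p₀ hp₀]; exact hp₀
    · rw [← hfu p₀ hp₀]; exact ⟨p₀, rfl⟩
  exact (hpre.subset_left_of_subset_union hBo hcl hdisj hcover hne hη).2

lemma preconnected_line (r : ℝ) (a b c d : ℂ) :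
    IsPreconnected ((fun ζ : ℂ => emb m k (a + ζ * b) (c + ζ * d)) ⁻¹'
      (Metric.ball (0 : Amb (m + 2) k) r)) := by
  apply Convex.isPreconnected
  intro x hx y hy s t hs ht hst
  simp only [mem_preimage] at hx hy ⊢
  have h1 := (convex_ball (0 : Amb (m + 2) k) r) hx hy hs ht hst
  convert h1 using 1
  rw [← emb_smul, ← emb_smul, ← emb_add]
  have hst' : (s : ℂ) + (t : ℂ) = 1 := by exact_mod_cast hst
  congr 1
  · simp only [Complex.real_smul]
    linear_combination (-a) * hst'
  · simp only [Complex.real_smul]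
    linear_combination (-c) * hst'

lemma cont_line (a b c d : ℂ) :
    Continuous (fun ζ : ℂ => emb m k (a + ζ * b) (c + ζ * d)) :=
  continuous_emb.comp (f := fun ζ : ℂ => (a + ζ * b, c + ζ * d)) (by fun_prop)

/-- A pseudoholomorphic curve in `U` whose part in the ball `D = B(0, r) ⊆ U` lies in the tropical
set does not meet `D`. -/
theorem not_mem_ball (u : PHMap (stdACS (m + 2) k) U S) {r : ℝ}
    (hDU : Metric.ball (0 : Amb (m + 2) k) r ⊆ U)
    (hZ : ∀ p, u.u p ∈ Metric.ball (0 : Amb (m + 2) k) r → u.u p ∈ tropSet m k)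
    (p₀ : S) : u.u p₀ ∉ Metric.ball (0 : Amb (m + 2) k) r := by
  intro hp₀
  have hr : 0 < r := Metric.pos_of_mem_ball hp₀
  set D := Metric.ball (0 : Amb (m + 2) k) r with hD
  have hDo : IsOpen D := Metric.isOpen_ball
  set a : S → ℂ := fun p => (u.u p).1 0 with ha
  set b : S → ℂ := fun p => (u.u p).1 1 with hb
  have hcoord : ∀ j : Fin (m + 2), HolOn (fun p => (u.u p).1 j) := by
    intro j φ hφ
    have hj : Differentiable ℂ (fun v : Fin (m + 2) → ℂ => v j) := differentiable_apply j
    exact hj.comp_differentiableOn (u.hol φ hφ)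
  have hahol : HolOn a := hcoord 0
  have hbhol : HolOn b := hcoord 1
  have hdhol : HolOn (fun p => a p - b p) := fun φ hφ => (hahol φ hφ).sub (hbhol φ hφ)
  have hac : Continuous a := hahol.continuous
  have hbc : Continuous b := hbhol.continuous
  -- every point with image in `D`
  have heq : ∀ p, u.u p ∈ D → u.u p = emb m k (a p) (b p) := fun p hp => eq_emb_of_mem (hZ p hp)
  set F1 : Set S := {p | (a p).re = 0} with hF1
  set F2 : Set S := {p | (b p).re = 0} with hF2
  set F3 : Set S := {p | (a p - b p).re = 0} with hF3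
  have hF1c : IsClosed F1 := isClosed_eq (by fun_prop) continuous_const
  have hF2c : IsClosed F2 := isClosed_eq (by fun_prop) continuous_const
  have hF3c : IsClosed F3 := isClosed_eq (by fun_prop) continuous_const
  have hO : IsOpen {p | u.u p ∈ D} := hDo.preimage u.continuousU
  have hcov : {p | u.u p ∈ D} ⊆ F1 ∪ (F2 ∪ F3) := by
    intro p hp
    rcases trop_of_mem (hZ p hp) with h | h | h
    · exact Or.inl h.1
    · exact Or.inr (Or.inl h.1)
    · refine Or.inr (Or.inr ?_)
      show (a p - b p).re = 0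
      rw [Complex.sub_re]
      linarith [h.1]
  have hint : p₀ ∈ interior (F1 ∪ (F2 ∪ F3)) := by
    rw [mem_interior]
    exact ⟨_, hcov, hO, hp₀⟩
  have hcases : (interior F1).Nonempty ∨ (interior F2).Nonempty ∨ (interior F3).Nonempty := by
    by_contra hcon
    push Not at hcon
    obtain ⟨h1, h2, h3⟩ := hcon
    rw [interior_union_isClosed_of_interior_empty hF1c, ] at hint
    · rw [h1] at hint
      exact hint
    · rw [interior_union_isClosed_of_interior_empty hF2c h3, h2]
  rcases hcases with h | h | h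
  · -- `a` is constant with real part `0`
    obtain ⟨p₁, hp₁⟩ := h
    have hsub : ∀ q ∈ interior F1, (a q).re = 0 := fun q hq =>
      (interior_subset hq : q ∈ F1)
    have hconst : ∀ q, a q = a p₁ := hahol.const_of_re_const isOpen_interior hp₁
      (x := 0) hsub
    have hre : (a p₁).re = 0 := hsub p₁ hp₁
    set γ : ℂ → Amb (m + 2) k := fun ζ => emb m k (a p₁ + ζ * 0) (0 + ζ * 1) with hγ
    have hγinj : Function.Injective γ := by
      intro x y hxy
      simpa using (emb_injective_iff.1 hxy).2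
    have hfu : ∀ p, u.u p ∈ D → u.u p = γ (b p) := by
      intro p hp
      rw [heq p hp, hγ]
      simp only [mul_zero, add_zero, zero_add, mul_one]
      rw [hconst p]
    have hη0 : γ (b p₀) ∈ D := by rw [← hfu p₀ hp₀]; exact hp₀
    -- move to the point with real part `+ε`
    have hΩo : IsOpen (γ ⁻¹' D) := hDo.preimage (cont_line _ _ _ _)
    have himag : γ (Complex.I * (b p₀).im) ∈ D := by
      rw [hD, mem_ball_zero_iff] at hη0 ⊢
      rw [Prod.norm_def, max_lt_iff, pi_norm_lt_iff hr] at hη0 ⊢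
      refine ⟨?_, hη0.2⟩
      intro j
      have hj := hη0.1 j
      refine Fin.cases ?_ (fun j => ?_) j
      · have := hη0.1 0
        simpa [hγ] using this
      · refine Fin.cases ?_ (fun j => ?_) j
        · have := hη0.1 1
          simp only [hγ, Fin.succ_zero_eq_one, emb_one, zero_add, mul_one] at this ⊢
          refine lt_of_le_of_lt ?_ this
          rw [norm_mul, Complex.norm_I, one_mul, Complex.norm_real, Real.norm_eq_abs]
          exact Complex.abs_im_le_norm _
        · have := hη0.1 j.succ.succ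
          simpa [hγ] using this
    obtain ⟨ε, hε, hball⟩ := Metric.isOpen_iff.1 hΩo _ himag
    have hmem : Complex.I * (b p₀).im + ((ε / 2 : ℝ) : ℂ) ∈ γ ⁻¹' D := by
      apply hball
      rw [Metric.mem_ball, dist_eq_norm, add_sub_cancel_left, Complex.norm_real,
        Real.norm_eq_abs, abs_of_pos (by positivity)]
      linarith
    obtain ⟨q, hq⟩ := line_subset_range u hDo hDU (cont_line _ _ _ _) hγinj hbhol hfu
      (preconnected_line r _ _ _ _) hp₀ _ hmem
    have hqD : u.u q ∈ D := by rw [hq]; exact hmem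
    have htrop := trop_of_mem (hZ q hqD)
    rw [hq] at htrop
    simp only [emb_zero, emb_one, mul_zero, add_zero, zero_add, mul_one] at htrop
    unfold Trop at htrop
    simp only [Complex.add_re, Complex.mul_re, Complex.I_re, Complex.ofReal_re, zero_mul,
      Complex.I_im, Complex.ofReal_im, mul_zero, sub_zero, zero_add, hre] at htrop
    rcases htrop with h | h | h <;> linarith [h.1, h.2]
  · -- `b` is constant with real part `0`
    obtain ⟨p₁, hp₁⟩ := h
    have hsub : ∀ q ∈ interior F2, (b q).re = 0 := fun q hq =>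
      (interior_subset hq : q ∈ F2)
    have hconst : ∀ q, b q = b p₁ := hbhol.const_of_re_const isOpen_interior hp₁
      (x := 0) hsub
    have hre : (b p₁).re = 0 := hsub p₁ hp₁
    set γ : ℂ → Amb (m + 2) k := fun ζ => emb m k (0 + ζ * 1) (b p₁ + ζ * 0) with hγ
    have hγinj : Function.Injective γ := by
      intro x y hxy
      simpa using (emb_injective_iff.1 hxy).1
    have hfu : ∀ p, u.u p ∈ D → u.u p = γ (a p) := by
      intro p hp
      rw [heq p hp, hγ]
      simp only [mul_zero, add_zero, zero_add, mul_one]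
      rw [hconst p]
    have hη0 : γ (a p₀) ∈ D := by rw [← hfu p₀ hp₀]; exact hp₀
    have hΩo : IsOpen (γ ⁻¹' D) := hDo.preimage (cont_line _ _ _ _)
    have himag : γ (Complex.I * (a p₀).im) ∈ D := by
      rw [hD, mem_ball_zero_iff] at hη0 ⊢
      rw [Prod.norm_def, max_lt_iff, pi_norm_lt_iff hr] at hη0 ⊢
      refine ⟨?_, hη0.2⟩
      intro j
      refine Fin.cases ?_ (fun j => ?_) j
      · have := hη0.1 0
        simp only [hγ, emb_zero, zero_add, mul_one] at this ⊢
        refine lt_of_le_of_lt ?_ this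
        rw [norm_mul, Complex.norm_I, one_mul, Complex.norm_real, Real.norm_eq_abs]
        exact Complex.abs_im_le_norm _
      · refine Fin.cases ?_ (fun j => ?_) j
        · have := hη0.1 1
          simpa [hγ] using this
        · have := hη0.1 j.succ.succ
          simpa [hγ] using this
    obtain ⟨ε, hε, hball⟩ := Metric.isOpen_iff.1 hΩo _ himag
    have hmem : Complex.I * (a p₀).im + ((ε / 2 : ℝ) : ℂ) ∈ γ ⁻¹' D := by
      apply hball
      rw [Metric.mem_ball, dist_eq_norm, add_sub_cancel_left, Complex.norm_real,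
        Real.norm_eq_abs, abs_of_pos (by positivity)]
      linarith
    obtain ⟨q, hq⟩ := line_subset_range u hDo hDU (cont_line _ _ _ _) hγinj hahol hfu
      (preconnected_line r _ _ _ _) hp₀ _ hmem
    have hqD : u.u q ∈ D := by rw [hq]; exact hmem
    have htrop := trop_of_mem (hZ q hqD)
    rw [hq] at htrop
    simp only [emb_zero, emb_one, mul_zero, add_zero, zero_add, mul_one] at htrop
    unfold Trop at htrop
    simp only [Complex.add_re, Complex.mul_re, Complex.I_re, Complex.ofReal_re, zero_mul,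
      Complex.I_im, Complex.ofReal_im, mul_zero, sub_zero, zero_add, hre] at htrop
    rcases htrop with h | h | h <;> linarith [h.1, h.2]
  · -- `a - b` is constant with real part `0`
    obtain ⟨p₁, hp₁⟩ := h
    have hsub : ∀ q ∈ interior F3, (a q - b q).re = 0 := fun q hq =>
      (interior_subset hq : q ∈ F3)
    have hconst : ∀ q, a q - b q = a p₁ - b p₁ :=
      hdhol.const_of_re_const isOpen_interior hp₁ (x := 0) hsub
    have hre : (a p₁ - b p₁).re = 0 := hsub p₁ hp₁
    set c : ℂ := -(a p₁ - b p₁) with hc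
    have hcre : c.re = 0 := by rw [hc, Complex.neg_re, hre, neg_zero]
    set γ : ℂ → Amb (m + 2) k := fun ζ => emb m k (0 + ζ * 1) (c + ζ * 1) with hγ
    have hγinj : Function.Injective γ := by
      intro x y hxy
      simpa using (emb_injective_iff.1 hxy).1
    have hfu : ∀ p, u.u p ∈ D → u.u p = γ (a p) := by
      intro p hp
      rw [heq p hp, hγ]
      simp only [zero_add, mul_one]
      congr 1
      have := hconst p
      rw [hc]
      linear_combination -this
    have hη0 : γ (a p₀) ∈ D := by rw [← hfu p₀ hp₀]; exact hp₀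
    have hΩo : IsOpen (γ ⁻¹' D) := hDo.preimage (cont_line _ _ _ _)
    have himag : γ (Complex.I * (a p₀).im) ∈ D := by
      rw [hD, mem_ball_zero_iff] at hη0 ⊢
      rw [Prod.norm_def, max_lt_iff, pi_norm_lt_iff hr] at hη0 ⊢
      refine ⟨?_, hη0.2⟩
      intro j
      refine Fin.cases ?_ (fun j => ?_) j
      · have := hη0.1 0
        simp only [hγ, emb_zero, zero_add, mul_one] at this ⊢
        refine lt_of_le_of_lt ?_ this
        rw [norm_mul, Complex.norm_I, one_mul, Complex.norm_real, Real.norm_eq_abs]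
        exact Complex.abs_im_le_norm _
      · refine Fin.cases ?_ (fun j => ?_) j
        · have := hη0.1 1
          simp only [hγ, Fin.succ_zero_eq_one, emb_one, mul_one] at this ⊢
          refine lt_of_le_of_lt ?_ this
          have h1 : c + Complex.I * (a p₀).im = Complex.I * ((c + a p₀).im : ℂ) := by
            apply Complex.ext <;> simp [hcre]
          rw [h1, norm_mul, Complex.norm_I, one_mul, Complex.norm_real, Real.norm_eq_abs]
          exact Complex.abs_im_le_norm _
        · have := hη0.1 j.succ.succ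
          simpa [hγ] using this
    obtain ⟨ε, hε, hball⟩ := Metric.isOpen_iff.1 hΩo _ himag
    have hmem : Complex.I * (a p₀).im - ((ε / 2 : ℝ) : ℂ) ∈ γ ⁻¹' D := by
      apply hball
      rw [Metric.mem_ball, dist_eq_norm]
      have : Complex.I * (a p₀).im - ((ε / 2 : ℝ) : ℂ) - Complex.I * (a p₀).im =
        -((ε / 2 : ℝ) : ℂ) := by ring
      rw [this, norm_neg, Complex.norm_real,
        Real.norm_eq_abs, abs_of_pos (by positivity)]
      linarith
    obtain ⟨q, hq⟩ := line_subset_range u hDo hDU (cont_line _ _ _ _) hγinj hahol hfu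
      (preconnected_line r _ _ _ _) hp₀ _ hmem
    have hqD : u.u q ∈ D := by rw [hq]; exact hmem
    have htrop := trop_of_mem (hZ q hqD)
    rw [hq] at htrop
    simp only [emb_zero, emb_one, zero_add, mul_one] at htrop
    unfold Trop at htrop
    simp only [Complex.add_re, Complex.sub_re, Complex.mul_re, Complex.I_re, Complex.ofReal_re,
      zero_mul, Complex.I_im, Complex.ofReal_im, mul_zero, sub_zero, zero_add, zero_sub,
      hcre] at htrop
    rcases htrop with h | h | h <;> linarith [h.1, h.2]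

end

end Run7.h203.LeafCyc
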