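import Pool.Agent.Run7.h203.LeafCyc.Piece
import Pool.Agent.Run7.h203.LeafCyc.Support

/-!
The tropical current on `ℂⁿ × ℝᵏ`, `n ≥ 2`, is a `C`-cycle which is not, near the origin, a
superposition of pseudoholomorphic curves.
-/

open MeasureTheory Set TopologicalSpace Filter
open scoped Manifold ContDiff Topology

namespace Run7.h203.LeafCyc

variable {m k : ℕ}

/-- the vector `(z, w, 0, …, 0)` -/
def vec (m : ℕ) (z w : ℂ) : Fin (m + 2) → ℂ := Fin.cons z (Fin.cons w (fun _ => 0))

@[simp] lemma vec_zero (z w : ℂ) : vec m z w 0 = z := rfl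
@[simp] lemma vec_one (z w : ℂ) : vec m z w 1 = w := rfl
@[simp] lemma vec_succ (z w : ℂ) (j : Fin m) : vec m z w j.succ.succ = 0 := rfl

lemma parL_vec (z w z' w' : ℂ) (x : ℝ × ℝ × ℝ) :
    parL k (vec m z w) (vec m z' w') x =
      emb m k (((x.1 : ℂ) + x.2.1 * Complex.I) * z + ((x.2.2 : ℂ) * Complex.I) * z')
        (((x.1 : ℂ) + x.2.1 * Complex.I) * w + ((x.2.2 : ℂ) * Complex.I) * w') := by
  rw [parL_apply]
  apply emb_ext <;> simp

/-- injectivity of the parametrisations -/
lemma parL_injective {z w z' w' : ℂ} (hz : z.im = 0) (hw : w.im = 0) (hz' : z'.im = 0)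
    (hw' : w'.im = 0) (hdet : z.re * w'.re - z'.re * w.re ≠ 0) :
    Function.Injective (parL k (vec m z w) (vec m z' w')) := by
  intro x y hxy
  rw [parL_vec, parL_vec, emb_injective_iff] at hxy
  obtain ⟨h1, h2⟩ := hxy
  have h1r := congrArg Complex.re h1
  have h1i := congrArg Complex.im h1
  have h2r := congrArg Complex.re h2
  have h2i := congrArg Complex.im h2
  simp [hz, hw, hz', hw'] at h1r h1i h2r h2i
  have hzw : z.re ≠ 0 ∨ w.re ≠ 0 := by
    by_contra hcon
    push Not at hcon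
    apply hdet
    rw [hcon.1, hcon.2]; ring
  have e1 : x.1 = y.1 := by
    rcases hzw with h | h
    · rcases h1r with h' | h'
      · exact h'
      · exact absurd h' h
    · rcases h2r with h' | h'
      · exact h'
      · exact absurd h' h
  have e3 : x.2.2 = y.2.2 := by
    have : (x.2.2 - y.2.2) * (z.re * w'.re - z'.re * w.re) = 0 := by
      linear_combination z.re * h2i - w.re * h1i
    rcases mul_eq_zero.1 this with h | h
    · linarith
    · exact absurd h hdet
  have e2 : x.2.1 = y.2.1 := by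
    rcases hzw with h | h
    · have : (x.2.1 - y.2.1) * z.re = 0 := by
        rw [e3] at h1i; linear_combination h1i
      rcases mul_eq_zero.1 this with h' | h'
      · linarith
      · exact absurd h' h
    · have : (x.2.1 - y.2.1) * w.re = 0 := by
        rw [e3] at h2i; linear_combination h2i
      rcases mul_eq_zero.1 this with h' | h'
      · linarith
      · exact absurd h' h
  exact Prod.ext e1 (Prod.ext e2 e3)

lemma inj1 : Function.Injective (parL k (vec m 0 1) (vec m 1 0)) :=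
  parL_injective (by simp) (by simp) (by simp) (by simp) (by simp)

lemma inj2 : Function.Injective (parL k (vec m 1 0) (vec m 0 1)) :=
  parL_injective (by simp) (by simp) (by simp) (by simp) (by simp)

lemma inj3 : Function.Injective (parL k (vec m (-1) (-1)) (vec m 0 1)) :=
  parL_injective (by simp) (by simp) (by simp) (by simp) (by simp)

/-- The tropical current (a constant multiple of `dd^c max (0, Re z₁, Re z₂)` on
`ℂ² × {0} × {0}`). -/
noncomputable def tropCurrent (m k : ℕ) : Current (Amb (m + 2) k) 2 ⊤ :=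
  piece k (vec m 0 1) (vec m 1 0) + piece k (vec m 1 0) (vec m 0 1)
    + piece k (vec m (-1) (-1)) (vec m 0 1)

lemma tropCurrent_apply (α : Form (Amb (m + 2) k) 2 ⊤) :
    tropCurrent m k α = piece k (vec m 0 1) (vec m 1 0) α + piece k (vec m 1 0) (vec m 0 1) α
    + piece k (vec m (-1) (-1)) (vec m 0 1) α := rfl

/-! ### It is a structure current -/

theorem isStructureCurrent_trop : IsStructureCurrent (stdACS (m + 2) k) (tropCurrent m k) := by
  unfold IsStructureCurrent tropCurrent currentCone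
  have hmem : ∀ (v : Fin (m + 2) → ℂ) (y : Amb (m + 2) k),
      dirac ⊤ y (wedge ((v, 0) : Amb (m + 2) k) (Complex.I • v, 0)) ∈
      {c' : GCurrent (Amb (m + 2) k) 2 | ∃ y, ∃ w ∈ structureCone (stdACS (m + 2) k) y,
        IsDirac y w c'} := by
    intro v y
    refine ⟨y, _, ?_, isDirac_dirac _ _⟩
    exact subset_closure (subset_combos _ ⟨v, rfl⟩)
  refine closedCone_add (closedCone_add ?_ ?_) ?_
  · exact piece_mem_closedCone inj1 (hmem _)
  · exact piece_mem_closedCone inj2 (hmem _)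
  · exact piece_mem_closedCone inj3 (hmem _)

/-! ### It is a cycle -/

lemma cov_one_add {E : Type} [NormedAddCommGroup E] [NormedSpace ℝ E] (η : Cov E 1) (a b : E) :
    η ![a + b] = η ![a] + η ![b] :=
  η.toAlternatingMap.map_vecCons_add ![] a b

lemma cov_one_smul {E : Type} [NormedAddCommGroup E] [NormedSpace ℝ E] (η : Cov E 1) (c : ℝ)
    (a : E) : η ![c • a] = c * η ![a] :=
  η.toAlternatingMap.map_vecCons_smul ![] c a

lemma integral_shear {g : ℝ × ℝ → ℝ} (hg : Continuous g) (hgc : HasCompactSupport g) :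
    ∫ p : ℝ × ℝ, g (-p.1, -p.1 + p.2) = ∫ p : ℝ × ℝ, g p := by
  let e : ℝ × ℝ ≃ₜ ℝ × ℝ :=
    { toFun := fun p => (-p.1, -p.1 + p.2)
      invFun := fun p => (-p.1, p.2 - p.1)
      left_inv := fun p => by simp
      right_inv := fun p => by simp
      continuous_toFun := by fun_prop
      continuous_invFun := by fun_prop }
  have hint : Integrable (fun p : ℝ × ℝ => g (-p.1, -p.1 + p.2))
      ((volume : Measure ℝ).prod (volume : Measure ℝ)) :=
    (hg.comp e.continuous).integrable_of_hasCompactSupport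
      (hgc.comp_isClosedEmbedding e.isClosedEmbedding)
  have hint2 : Integrable g ((volume : Measure ℝ).prod (volume : Measure ℝ)) :=
    hg.integrable_of_hasCompactSupport hgc
  rw [Measure.volume_eq_prod, integral_prod _ hint, integral_prod _ hint2]
  simp only
  have h1 : ∀ t : ℝ, ∫ θ : ℝ, g (-t, -t + θ) = ∫ θ : ℝ, g (-t, θ) := fun t =>
    integral_add_left_eq_self (fun θ => g (-t, θ)) (-t)
  simp only [h1]
  exact integral_neg_eq_self (fun t : ℝ => ∫ θ : ℝ, g (t, θ)) volume

theorem isCycle_trop : IsCycle (tropCurrent m k) := by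
  intro β
  rw [pair, tropCurrent_apply, piece_extD inj1, piece_extD inj2, piece_extD inj3]
  set e0 : Amb (m + 2) k := (Complex.I • vec m 1 0, 0) with he0
  set e1 : Amb (m + 2) k := (Complex.I • vec m 0 1, 0) with he1
  -- the two boundary densities
  set f : Amb (m + 2) k → ℝ × ℝ → ℝ := fun e p =>
    β (emb m k ((p.1 : ℂ) * Complex.I) ((p.2 : ℂ) * Complex.I)) ![e] with hf
  have hemb : Topology.IsClosedEmbedding (fun p : ℝ × ℝ =>
      emb m k ((p.1 : ℂ) * Complex.I) ((p.2 : ℂ) * Complex.I)) := by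
    let l : ℝ × ℝ →ₗ[ℝ] Amb (m + 2) k :=
      { toFun := fun p => emb m k ((p.1 : ℂ) * Complex.I) ((p.2 : ℂ) * Complex.I)
        map_add' := fun p q => by
          rw [← emb_add]; congr 1 <;> simp [add_mul]
        map_smul' := fun c p => by
          rw [RingHom.id_apply, ← emb_smul]; congr 1 <;> simp [mul_assoc] }
    have hl : l.ker = ⊥ := by
      rw [LinearMap.ker_eq_bot]
      intro p q hpq
      obtain ⟨h1, h2⟩ := emb_injective_iff.1 hpq
      have h1' : (p.1 : ℂ) = q.1 := mul_right_cancel₀ Complex.I_ne_zero h1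
      have h2' : (p.2 : ℂ) = q.2 := mul_right_cancel₀ Complex.I_ne_zero h2
      exact Prod.ext (by exact_mod_cast h1') (by exact_mod_cast h2')
    exact LinearMap.isClosedEmbedding_of_injective hl
  have hfc : ∀ e, Continuous (f e) := by
    intro e
    have h1 : Continuous (fun y => β y ![e]) :=
      (ContinuousAlternatingMap.apply ℝ (Amb (m + 2) k) ℝ ![e]).continuous.comp β.continuous
    exact h1.comp hemb.continuous
  have hfs : ∀ e, HasCompactSupport (f e) := by
    intro e
    have h1 : HasCompactSupport (fun y => β y ![e]) := β.hasCompactSupport.comp_left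
      (g := ContinuousAlternatingMap.apply ℝ (Amb (m + 2) k) ℝ ![e]) (map_zero _)
    exact h1.comp_isClosedEmbedding hemb
  have hfint : ∀ e, Integrable (f e) := fun e =>
    (hfc e).integrable_of_hasCompactSupport (hfs e)
  have b1 : ∫ p : ℝ × ℝ, β (parL k (vec m 0 1) (vec m 1 0) (0, p)) ![e1] = ∫ p, f e1 p := by
    have h1 : ∀ p : ℝ × ℝ, β (parL k (vec m 0 1) (vec m 1 0) (0, p)) ![e1] = f e1 p.swap := by
      intro p
      rw [parL_vec]
      simp [hf]
    simp only [h1]
    have h2 := integral_prod_swap (μ := (volume : Measure ℝ)) (ν := (volume : Measure ℝ)) (f e1)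
    rw [Measure.volume_eq_prod]
    exact h2
  have b2 : ∫ p : ℝ × ℝ, β (parL k (vec m 1 0) (vec m 0 1) (0, p)) ![e0] = ∫ p, f e0 p := by
    have h1 : ∀ p : ℝ × ℝ, β (parL k (vec m 1 0) (vec m 0 1) (0, p)) ![e0] = f e0 p := by
      intro p
      rw [parL_vec]
      simp [hf]
    simp only [h1]
  have b3 : ∫ p : ℝ × ℝ, β (parL k (vec m (-1) (-1)) (vec m 0 1) (0, p))
      ![((Complex.I • vec m (-1) (-1), 0) : Amb (m + 2) k)] = -(∫ p, f e0 p + f e1 p) := by
    have h1 : ∀ p : ℝ × ℝ, β (parL k (vec m (-1) (-1)) (vec m 0 1) (0, p))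
        ![((Complex.I • vec m (-1) (-1), 0) : Amb (m + 2) k)] =
        -((fun q => f e0 q + f e1 q) (-p.1, -p.1 + p.2)) := by
      intro p
      have h2 : ((Complex.I • vec m (-1) (-1), 0) : Amb (m + 2) k) = (-1 : ℝ) • (e0 + e1) := by
        refine Prod.ext ?_ (by simp [he0, he1])
        ext j
        refine Fin.cases ?_ (fun j => ?_) j
        · simp [he0, he1]
        · refine Fin.cases ?_ (fun j => ?_) j
          · simp [he0, he1]
          · simp [he0, he1]
      rw [h2, cov_one_smul, cov_one_add, parL_vec]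
      simp only [hf]
      have h4 : emb m k ((((0 : ℝ) : ℂ) + (p.1 : ℂ) * Complex.I) * (-1) +
            ((p.2 : ℂ) * Complex.I) * 0)
          ((((0 : ℝ) : ℂ) + (p.1 : ℂ) * Complex.I) * (-1) + ((p.2 : ℂ) * Complex.I) * 1) =
          emb m k (((-p.1 : ℝ) : ℂ) * Complex.I) (((-p.1 + p.2 : ℝ) : ℂ) * Complex.I) := by
        congr 1 <;> push_cast <;> ring
      rw [h4]
      ring
    simp only [h1]
    rw [integral_neg]
    congr 1
    exact integral_shear (g := fun q => f e0 q + f e1 q) ((hfc e0).add (hfc e1))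
      ((hfs e0).add (hfs e1))
  rw [b1, b2, b3, integral_add (hfint e0) (hfint e1)]
  ring

/-- Extension by zero `Ωᵖ_c(U) → Ωᵖ_c(E)`. -/
noncomputable def extendForm {E : Type} [NormedAddCommGroup E] [NormedSpace ℝ E] {p : ℕ}
    {U : Opens E} (α : Form E p U) : Form E p ⊤ where
  toFun := α
  contDiff' := α.contDiff
  hasCompactSupport' := α.hasCompactSupport
  tsupport_subset' := fun _ _ => trivial

/-! ### Values on `χ ω₀` -/

/-- `χ ω₀` as a compactly supported form on `U`. -/
noncomputable def kForm {n k : ℕ} (U : Opens (Amb n k)) (χ : Amb n k → ℝ) (hχ : ContDiff ℝ ∞ χ)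
    (hc : HasCompactSupport χ) (hs : tsupport χ ⊆ U) : Form (Amb n k) 2 U where
  toFun := fun y => χ y • kahler n k
  contDiff' := hχ.smul contDiff_const
  hasCompactSupport' := hc.smul_right
  tsupport_subset' := (tsupport_smul_subset_left _ _).trans hs

lemma piece_kForm {v w : Fin (m + 2) → ℂ} (h : Function.Injective (parL k v w))
    {α : Form (Amb (m + 2) k) 2 ⊤} {χ : Amb (m + 2) k → ℝ}
    (hα : ∀ y, α y = χ y • kahler (m + 2) k) :
    piece k v w α = ∫ x in {x : ℝ × ℝ × ℝ | x.1 < 0},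
      χ (parL k v w x) * ∑ j, Complex.normSq (v j) := by
  rw [piece_apply h]
  congr 1
  ext x
  rw [hα, ContinuousAlternatingMap.smul_apply, smul_eq_mul]
  congr 1
  exact kahler_J _ _ _ _ rfl

lemma measurableSet_half : MeasurableSet {x : ℝ × ℝ × ℝ | x.1 < 0} :=
  measurableSet_lt measurable_fst measurable_const

lemma isOpen_half : IsOpen {x : ℝ × ℝ × ℝ | x.1 < 0} :=
  isOpen_lt continuous_fst continuous_const

lemma parL_mem_tropSet1 {x : ℝ × ℝ × ℝ} (hx : x.1 < 0) :
    parL k (vec m 0 1) (vec m 1 0) x ∈ tropSet m k := by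
  rw [parL_vec, emb_mem_tropSet]
  left
  constructor
  · simp
  · simpa using hx.le

lemma parL_mem_tropSet2 {x : ℝ × ℝ × ℝ} (hx : x.1 < 0) :
    parL k (vec m 1 0) (vec m 0 1) x ∈ tropSet m k := by
  rw [parL_vec, emb_mem_tropSet]
  right; left
  constructor
  · simp
  · simpa using hx.le

lemma parL_mem_tropSet3 {x : ℝ × ℝ × ℝ} (hx : x.1 < 0) :
    parL k (vec m (-1) (-1)) (vec m 0 1) x ∈ tropSet m k := by
  rw [parL_vec, emb_mem_tropSet]
  right; right
  constructor
  · simp
  · simpa using hx.le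

/-- The tropical current does not charge the complement of the tropical set. -/
lemma tropCurrent_eq_zero {α : Form (Amb (m + 2) k) 2 ⊤} {χ : Amb (m + 2) k → ℝ}
    (hα : ∀ y, α y = χ y • kahler (m + 2) k) (hχ : ∀ y ∈ tropSet m k, χ y = 0) :
    tropCurrent m k α = 0 := by
  have key : ∀ v w : Fin (m + 2) → ℂ,
      (∀ x : ℝ × ℝ × ℝ, x.1 < 0 → parL k v w x ∈ tropSet m k) →
      ∫ x in {x : ℝ × ℝ × ℝ | x.1 < 0}, χ (parL k v w x) * ∑ j, Complex.normSq (v j) = 0 := by
    intro v w h
    refine setIntegral_eq_zero_of_forall_eq_zero fun x hx => ?_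
    rw [hχ _ (h x hx), zero_mul]
  rw [tropCurrent_apply, piece_kForm inj1 hα, piece_kForm inj2 hα, piece_kForm inj3 hα,
    key _ _ fun x hx => parL_mem_tropSet1 hx, key _ _ fun x hx => parL_mem_tropSet2 hx,
    key _ _ fun x hx => parL_mem_tropSet3 hx]
  simp

/-- The origin is in the support of the tropical current. -/
lemma tropCurrent_pos {α : Form (Amb (m + 2) k) 2 ⊤} {χ : Amb (m + 2) k → ℝ}
    (hα : ∀ y, α y = χ y • kahler (m + 2) k) (hχ : ∀ y, 0 ≤ χ y) (hχc : Continuous χ)
    (hχs : HasCompactSupport χ) (h0 : 0 < χ 0) :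
    0 < tropCurrent m k α := by
  rw [tropCurrent_apply, piece_kForm inj1 hα, piece_kForm inj2 hα, piece_kForm inj3 hα]
  have hnn : ∀ v w : Fin (m + 2) → ℂ, 0 ≤ ∫ x in {x : ℝ × ℝ × ℝ | x.1 < 0},
      χ (parL k v w x) * ∑ j, Complex.normSq (v j) := by
    intro v w
    refine setIntegral_nonneg measurableSet_half fun x _ => ?_
    exact mul_nonneg (hχ _) (Finset.sum_nonneg fun j _ => Complex.normSq_nonneg _)
  have hpos : 0 < ∫ x in {x : ℝ × ℝ × ℝ | x.1 < 0},
      χ (parL k (vec m 0 1) (vec m 1 0) x) * ∑ j, Complex.normSq (vec m 0 1 j) := by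
    refine lt_of_le_of_ne (hnn _ _) fun hzero => ?_
    set g : ℝ × ℝ × ℝ → ℝ := fun x =>
      χ (parL k (vec m 0 1) (vec m 1 0) x) * ∑ j, Complex.normSq (vec m 0 1 j) with hg
    have hgc : Continuous g := (hχc.comp (continuous_parL _ _)).mul continuous_const
    have hgs : HasCompactSupport g :=
      (hχs.comp_isClosedEmbedding (closedEmbedding_parL inj1)).mul_right
    have hint : IntegrableOn g {x : ℝ × ℝ × ℝ | x.1 < 0} :=
      (hgc.integrable_of_hasCompactSupport hgs).integrableOn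
    have h1 := (setIntegral_eq_zero_iff_of_nonneg_ae (Eventually.of_forall fun x =>
      mul_nonneg (hχ _) (Finset.sum_nonneg fun j _ => Complex.normSq_nonneg _)) hint).1 hzero.symm
    have h2 := Measure.eqOn_open_of_ae_eq h1 isOpen_half hgc.continuousOn continuousOn_const
    -- evaluate near the origin
    have hg0 : 0 < g 0 := by
      have e1 : parL k (vec m 0 1) (vec m 1 0) (0 : ℝ × ℝ × ℝ) = 0 := map_zero _
      have e2 : 0 < ∑ j, Complex.normSq (vec m 0 1 j) := by
        refine Finset.sum_pos' (fun j _ => Complex.normSq_nonneg _) ⟨1, Finset.mem_univ _, ?_⟩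
        simp
      simp only [hg, e1]
      exact mul_pos h0 e2
    have hN : {x | 0 < g x} ∈ 𝓝 (0 : ℝ × ℝ × ℝ) :=
      (isOpen_lt continuous_const hgc).mem_nhds hg0
    obtain ⟨ε, hε, hball⟩ := Metric.mem_nhds_iff.1 hN
    have hx : ((-(ε / 2), 0, 0) : ℝ × ℝ × ℝ) ∈ Metric.ball (0 : ℝ × ℝ × ℝ) ε := by
      rw [mem_ball_zero_iff, Prod.norm_def, Prod.norm_def]
      simp only [norm_zero, max_self, norm_neg, Real.norm_eq_abs]
      rw [abs_of_pos (by positivity), max_eq_left (by positivity)]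
      linarith
    have h3 := hball hx
    have h4 := h2 (show ((-(ε / 2), 0, 0) : ℝ × ℝ × ℝ).1 < 0 by simp only; linarith)
    simp only [Pi.zero_apply] at h4
    have h5 : 0 < g (-(ε / 2), 0, 0) := h3
    linarith
  have := hnn (vec m 1 0) (vec m 0 1)
  have := hnn (vec m (-1) (-1)) (vec m 0 1)
  linarith

/-! ### It is not locally a superposition of pseudoholomorphic curves -/

theorem not_represents (U : Opens (Amb (m + 2) k)) (hU : (0 : Amb (m + 2) k) ∈ U)
    (ν : Measure (CurveSpace (stdACS (m + 2) k) U)) : ¬ Represents ν (tropCurrent m k) := by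
  intro hν
  -- a first cut-off function
  obtain ⟨ψ, hψs, hψc, hψd, hψr, hψ0⟩ :=
    exists_contDiff_tsupport_subset (n := ⊤) (U.isOpen.mem_nhds hU)
  have hψnn : ∀ y, 0 ≤ ψ y := fun y => (hψr ⟨y, rfl⟩).1
  have hpos : {y | 0 < ψ y} ∈ 𝓝 (0 : Amb (m + 2) k) :=
    (isOpen_lt continuous_const hψd.continuous).mem_nhds (by simp [hψ0])
  obtain ⟨r, hr, hball⟩ := Metric.mem_nhds_iff.1 hpos
  have hDU : Metric.ball (0 : Amb (m + 2) k) r ⊆ U := fun y hy =>
    hψs (subset_tsupport _ (ne_of_gt (hball hy)))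
  -- a smooth function with support the complement of the tropical set
  obtain ⟨f, hfs, hfd, hfr⟩ := (isClosed_tropSet (m := m) (k := k)).isOpen_compl
    |>.exists_contDiff_support_eq (n := ⊤)
  have hfnn : ∀ y, 0 ≤ f y := fun y => (hfr ⟨y, rfl⟩).1
  -- first form
  set χ₁ : Amb (m + 2) k → ℝ := fun y => ψ y * f y with hχ₁
  have hχ₁nn : ∀ y, 0 ≤ χ₁ y := fun y => mul_nonneg (hψnn y) (hfnn y)
  have hχ₁d : ContDiff ℝ ∞ χ₁ := hψd.mul hfd
  have hχ₁c : HasCompactSupport χ₁ := hψc.mul_right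
  have hχ₁s : tsupport χ₁ ⊆ U := (tsupport_mul_subset_left).trans hψs
  set α₁ := kForm U χ₁ hχ₁d hχ₁c hχ₁s with hα₁
  have hT1 : tropCurrent m k (extendForm α₁) = 0 := by
    refine tropCurrent_eq_zero (χ := χ₁) (fun y => rfl) fun y hy => ?_
    have : f y = 0 := by
      by_contra hne
      have : y ∈ Function.support f := hne
      rw [hfs] at this
      exact this hy
    simp [hχ₁, this]
  obtain ⟨hint1, heq1⟩ := hν α₁ (extendForm α₁) (fun _ => rfl)
  rw [pair, hT1] at heq1
  have hae : ∀ᵐ c' : CurveSpace (stdACS (m + 2) k) U ∂ν, evalCurve α₁ c' = 0 := by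
    have hnn : 0 ≤ᵐ[ν] fun c' : CurveSpace (stdACS (m + 2) k) U => evalCurve α₁ c' := by
      refine Eventually.of_forall ?_
      rintro ⟨c', S, _, _, _, _, _, _, u, hu⟩
      exact current_nonneg u hu (χ := χ₁) (fun y => rfl) hχ₁nn
    exact (integral_eq_zero_iff_of_nonneg_ae hnn hint1).1 heq1.symm
  -- second form
  obtain ⟨ψ₂, hψ₂s, hψ₂c, hψ₂d, hψ₂r, hψ₂0⟩ :=
    exists_contDiff_tsupport_subset (n := ⊤) (Metric.ball_mem_nhds (0 : Amb (m + 2) k) hr)
  have hψ₂nn : ∀ y, 0 ≤ ψ₂ y := fun y => (hψ₂r ⟨y, rfl⟩).1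
  set α₂ := kForm U ψ₂ hψ₂d hψ₂c (hψ₂s.trans hDU) with hα₂
  have hT2 : 0 < tropCurrent m k (extendForm α₂) :=
    tropCurrent_pos (χ := ψ₂) (fun y => rfl) hψ₂nn hψ₂d.continuous hψ₂c (by simp [hψ₂0])
  obtain ⟨-, heq2⟩ := hν α₂ (extendForm α₂) (fun _ => rfl)
  have hae2 : ∀ᵐ c' : CurveSpace (stdACS (m + 2) k) U ∂ν, evalCurve α₂ c' = 0 := by
    filter_upwards [hae]
    rintro ⟨c', S, _, _, _, _, _, _, u, hu⟩ hzero
    have hZ : ∀ p, u.u p ∈ Metric.ball (0 : Amb (m + 2) k) r → u.u p ∈ tropSet m k := by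
      intro p hp
      have h1 := eq_zero_of_current_eq_zero u hu (χ := χ₁) (fun y => rfl) hχ₁nn
        hχ₁d.continuous hzero p
      have h2 : 0 < ψ (u.u p) := hball hp
      have h3 : f (u.u p) = 0 := by
        rcases mul_eq_zero.1 h1 with h | h
        · exact absurd h (ne_of_gt h2)
        · exact h
      by_contra hne
      have h4 : u.u p ∈ Function.support f := by rw [hfs]; exact hne
      exact h4 h3
    refine current_eq_zero u hu (χ := ψ₂) (fun y => rfl) fun p => ?_
    have h5 := not_mem_ball u hDU hZ p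
    by_contra hne
    exact h5 (hψ₂s (subset_tsupport _ hne))
  rw [integral_congr_ae hae2, integral_zero, pair] at heq2
  linarith

theorem hasNonSuperposableCycle : HasNonSuperposableCycle (Fin (m + 2) → ℂ) (Fin k → ℝ) := by
  refine ⟨stdACS (m + 2) k, fun _ _ => rfl, tropCurrent m k,
    ⟨isStructureCurrent_trop, isCycle_trop⟩, 0, ?_⟩
  rintro ⟨U, hU, ν, hν⟩
  exact not_represents U hU ν hν

end Run7.h203.LeafCyc
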