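import Pool.Agent.Run7.h203.LeafCyc.Curve
import Pool.Agent.Run7.h203.LeafCyc.IntCurrent

/-!
Currents of integration over families of complex half-lines, and their boundary.
-/

open MeasureTheory Set TopologicalSpace Filter
open scoped Manifold ContDiff Topology

namespace Run7.h203.LeafCyc

variable {n k : ℕ}

/-- `(s, t, θ) ↦ ((s + i t) v + i θ w, 0)` -/
noncomputable def parL (k : ℕ) (v w : Fin n → ℂ) : ℝ × ℝ × ℝ →ₗ[ℝ] Amb n k where
  toFun x := (((x.1 : ℂ) + x.2.1 * Complex.I) • v + ((x.2.2 : ℂ) * Complex.I) • w, 0)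
  map_add' x y := by
    refine Prod.ext ?_ (by simp)
    simp only [Prod.fst_add, Prod.snd_add, Complex.ofReal_add]
    module
  map_smul' c x := by
    refine Prod.ext ?_ (by simp)
    ext j
    simp only [Prod.smul_fst, Prod.smul_snd, smul_eq_mul, Complex.ofReal_mul, RingHom.id_apply,
      Pi.smul_apply, Pi.add_apply, Complex.real_smul]
    ring

lemma parL_apply (v w : Fin n → ℂ) (x : ℝ × ℝ × ℝ) :
    parL k v w x = (((x.1 : ℂ) + x.2.1 * Complex.I) • v + ((x.2.2 : ℂ) * Complex.I) • w, 0) := rfl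

lemma continuous_parL (v w : Fin n → ℂ) : Continuous (parL k v w) :=
  (parL k v w).continuous_of_finiteDimensional

/-- `parL` as a continuous linear map -/
noncomputable def parCLM (k : ℕ) (v w : Fin n → ℂ) : ℝ × ℝ × ℝ →L[ℝ] Amb n k :=
  ⟨parL k v w, continuous_parL v w⟩

lemma closedEmbedding_parL {v w : Fin n → ℂ} (h : Function.Injective (parL k v w)) :
    Topology.IsClosedEmbedding (parL k v w) :=
  LinearMap.isClosedEmbedding_of_injective (LinearMap.ker_eq_bot.2 h)

/-- the measure on the family of half-lines -/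
noncomputable def pieceMeasure (k : ℕ) (v w : Fin n → ℂ) : Measure (Amb n k) :=
  (volume.restrict {x : ℝ × ℝ × ℝ | x.1 < 0}).map (parL k v w)

lemma pieceMeasure_lt_top {v w : Fin n → ℂ} (h : Function.Injective (parL k v w))
    {K : Set (Amb n k)} (hK : IsCompact K) : pieceMeasure k v w K < ⊤ := by
  unfold pieceMeasure
  rw [Measure.map_apply (continuous_parL v w).measurable hK.measurableSet]
  refine lt_of_le_of_lt (Measure.restrict_apply_le _ _) ?_
  exact ((closedEmbedding_parL h).isCompact_preimage hK).measure_lt_top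

/-- The current of integration over the half-lines
`{(s + i t) v + i θ w : s < 0, t ∈ ℝ}`, `θ ∈ ℝ`. -/
noncomputable def piece (k : ℕ) (v w : Fin n → ℂ) : Current (Amb n k) 2 ⊤ :=
  intCurrent (pieceMeasure k v w) (wedge ((v, 0) : Amb n k) (Complex.I • v, 0))

lemma piece_apply {v w : Fin n → ℂ} (h : Function.Injective (parL k v w))
    (α : Form (Amb n k) 2 ⊤) :
    piece k v w α = ∫ x in {x : ℝ × ℝ × ℝ | x.1 < 0},
      α (parL k v w x) ![((v, 0) : Amb n k), (Complex.I • v, 0)] := by
  have : IsFiniteMeasureOnCompacts (pieceMeasure k v w) := ⟨fun _ hK => pieceMeasure_lt_top h hK⟩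
  unfold piece
  rw [intCurrent_apply, pieceMeasure, (closedEmbedding_parL h).measurableEmbedding.integral_map]
  rfl

lemma piece_mem_closedCone {v w : Fin n → ℂ} (h : Function.Injective (parL k v w))
    {s : Set (Current (Amb n k) 2 ⊤)}
    (hs : ∀ y, dirac ⊤ y (wedge ((v, 0) : Amb n k) (Complex.I • v, 0)) ∈ s) :
    piece k v w ∈ closedCone s := by
  have : IsFiniteMeasureOnCompacts (pieceMeasure k v w) := ⟨fun _ hK => pieceMeasure_lt_top h hK⟩
  exact intCurrent_mem_closedCone _ _ hs

lemma volume_half : (volume.restrict {x : ℝ × ℝ × ℝ | x.1 < 0}) =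
    (volume.restrict (Iio (0 : ℝ))).prod (volume : Measure (ℝ × ℝ)) := by
  have : {x : ℝ × ℝ × ℝ | x.1 < 0} = Iio (0 : ℝ) ×ˢ (univ : Set (ℝ × ℝ)) := by
    ext x; simp
  rw [this, Measure.volume_eq_prod, ← Measure.prod_restrict, Measure.restrict_univ]

section calculus

lemma integral_fst_deriv {G : ℝ × ℝ × ℝ → ℝ} (hG : ContDiff ℝ 1 G) (hGc : HasCompactSupport G) :
    ∫ x in {x : ℝ × ℝ × ℝ | x.1 < 0}, fderiv ℝ G x (1, 0, 0) = ∫ p : ℝ × ℝ, G (0, p) := by
  have hcont : Continuous (fun x => fderiv ℝ G x (1, 0, 0)) :=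
    (hG.continuous_fderiv (by norm_num)).clm_apply continuous_const
  have hc : HasCompactSupport (fun x => fderiv ℝ G x (1, 0, 0)) :=
    hGc.fderiv_apply ℝ (1, 0, 0)
  have hint : Integrable (fun x => fderiv ℝ G x (1, 0, 0))
      ((volume.restrict (Iio (0 : ℝ))).prod (volume : Measure (ℝ × ℝ))) := by
    rw [← volume_half]
    exact (hcont.integrable_of_hasCompactSupport hc).restrict
  rw [volume_half, integral_prod_symm _ hint]
  congr 1
  ext p
  have hg : ContDiff ℝ 1 (fun s : ℝ => G (s, p)) := hG.comp (by fun_prop)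
  have hgc : HasCompactSupport (fun s : ℝ => G (s, p)) := by
    have hemb : Topology.IsClosedEmbedding (fun s : ℝ => ((s, p) : ℝ × ℝ × ℝ)) := by
      refine Topology.IsClosedEmbedding.of_continuous_injective_isClosedMap (by fun_prop)
        (fun a b h => (Prod.ext_iff.1 h).1) ?_
      intro C hC
      have : (fun s : ℝ => ((s, p) : ℝ × ℝ × ℝ)) '' C = C ×ˢ {p} := by
        ext x; constructor
        · rintro ⟨s, hs, rfl⟩; exact ⟨hs, rfl⟩
        · rintro ⟨h1, h2⟩; exact ⟨x.1, h1, by rw [← (h2 : x.2 = p)]⟩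
      rw [this]
      exact hC.prod isClosed_singleton
    exact hGc.comp_isClosedEmbedding hemb
  rw [← integral_Iic_eq_integral_Iio, ← hgc.integral_Iic_deriv_eq hg 0]
  congr 1
  ext s
  have h1 : HasDerivAt (fun s : ℝ => ((s, p) : ℝ × ℝ × ℝ)) (1, 0) s :=
    (hasDerivAt_id s).prodMk (hasDerivAt_const s p)
  have h2 := ((hG.differentiable (by norm_num)) (s, p)).hasFDerivAt.comp_hasDerivAt s h1
  exact h2.deriv.symm

lemma integral_snd_deriv {H : ℝ × ℝ × ℝ → ℝ} (hH : ContDiff ℝ 1 H) (hHc : HasCompactSupport H) :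
    ∫ x in {x : ℝ × ℝ × ℝ | x.1 < 0}, fderiv ℝ H x (0, 1, 0) = 0 := by
  have hcont : Continuous (fun x => fderiv ℝ H x (0, 1, 0)) :=
    (hH.continuous_fderiv (by norm_num)).clm_apply continuous_const
  have hc : HasCompactSupport (fun x => fderiv ℝ H x (0, 1, 0)) :=
    hHc.fderiv_apply ℝ (0, 1, 0)
  have hint : Integrable (fun x => fderiv ℝ H x (0, 1, 0))
      ((volume.restrict (Iio (0 : ℝ))).prod (volume : Measure (ℝ × ℝ))) := by
    rw [← volume_half]
    exact (hcont.integrable_of_hasCompactSupport hc).restrict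
  rw [volume_half, integral_prod _ hint]
  have hzero : ∀ s : ℝ, ∫ p : ℝ × ℝ, fderiv ℝ H (s, p) (0, 1, 0) = 0 := by
    intro s
    have hemb : Topology.IsClosedEmbedding (fun p : ℝ × ℝ => ((s, p) : ℝ × ℝ × ℝ)) := by
      refine Topology.IsClosedEmbedding.of_continuous_injective_isClosedMap (by fun_prop)
        (fun a b h => (Prod.ext_iff.1 h).2) ?_
      intro C hC
      have : (fun p : ℝ × ℝ => ((s, p) : ℝ × ℝ × ℝ)) '' C = {s} ×ˢ C := by
        ext x; constructor
        · rintro ⟨p, hp, rfl⟩; exact ⟨rfl, hp⟩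
        · rintro ⟨h1, h2⟩; exact ⟨x.2, h2, by rw [← (h1 : x.1 = s)]⟩
      rw [this]
      exact isClosed_singleton.prod hC
    have hint2 : Integrable (fun p : ℝ × ℝ => fderiv ℝ H (s, p) (0, 1, 0))
        ((volume : Measure ℝ).prod (volume : Measure ℝ)) := by
      have h1 : Continuous (fun p : ℝ × ℝ => fderiv ℝ H (s, p) (0, 1, 0)) :=
        hcont.comp (by fun_prop)
      exact h1.integrable_of_hasCompactSupport (hc.comp_isClosedEmbedding hemb)
    rw [Measure.volume_eq_prod, integral_prod_symm _ hint2]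
    have hz : ∀ θ : ℝ, ∫ t : ℝ, fderiv ℝ H (s, t, θ) (0, 1, 0) = 0 := by
      intro θ
      have hemb2 : Topology.IsClosedEmbedding (fun t : ℝ => ((s, t, θ) : ℝ × ℝ × ℝ)) := by
        refine Topology.IsClosedEmbedding.of_continuous_injective_isClosedMap (by fun_prop)
          (fun a b h => (Prod.ext_iff.1 (Prod.ext_iff.1 h).2).1) ?_
        intro C hC
        have : (fun t : ℝ => ((s, t, θ) : ℝ × ℝ × ℝ)) '' C = {s} ×ˢ (C ×ˢ {θ}) := by
          ext x; constructor
          · rintro ⟨t, ht, rfl⟩; exact ⟨rfl, ht, rfl⟩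
          · rintro ⟨h1, h2, h3⟩
            refine ⟨x.2.1, h2, ?_⟩
            rw [← (h1 : x.1 = s), ← (h3 : x.2.2 = θ)]
        rw [this]
        exact isClosed_singleton.prod (hC.prod isClosed_singleton)
      refine integral_eq_zero_of_hasDerivAt_of_integrable (f := fun t : ℝ => H (s, t, θ))
        (fun t => ?_) ?_ ?_
      · have h1 : HasDerivAt (fun t : ℝ => ((s, t, θ) : ℝ × ℝ × ℝ)) (0, 1, 0) t :=
          (hasDerivAt_const t s).prodMk ((hasDerivAt_id t).prodMk (hasDerivAt_const t θ))
        exact ((hH.differentiable (by norm_num)) (s, t, θ)).hasFDerivAt.comp_hasDerivAt t h1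
      · have h1 : Continuous (fun t : ℝ => fderiv ℝ H (s, t, θ) (0, 1, 0)) :=
          hcont.comp (by fun_prop)
        exact h1.integrable_of_hasCompactSupport (hc.comp_isClosedEmbedding hemb2)
      · have h1 : Continuous (fun t : ℝ => H (s, t, θ)) := hH.continuous.comp (by fun_prop)
        exact h1.integrable_of_hasCompactSupport (hHc.comp_isClosedEmbedding hemb2)
    simp only [hz, integral_zero]
  simp only [hzero, integral_zero]

end calculus

/-- The boundary of a piece. -/
lemma piece_extD {v w : Fin n → ℂ} (h : Function.Injective (parL k v w))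
    (β : Form (Amb n k) 1 ⊤) :
    piece k v w (extD β) =
      ∫ p : ℝ × ℝ, β (parL k v w (0, p)) ![((Complex.I • v, 0) : Amb n k)] := by
  rw [piece_apply h]
  set a : Amb n k := (v, 0) with ha
  set b : Amb n k := (Complex.I • v, 0) with hb
  have hβ : ContDiff ℝ ∞ (β : Amb n k → Cov (Amb n k) 1) := β.contDiff
  have hβd : Differentiable ℝ (β : Amb n k → Cov (Amb n k) 1) := hβ.differentiable (by simp)
  -- evaluation of `β` on a fixed vector
  have hev : ∀ c : Amb n k, ContDiff ℝ 1 (fun y => β y ![c]) := by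
    intro c
    have h1 : ContDiff ℝ 1 (β : Amb n k → Cov (Amb n k) 1) := hβ.of_le (by simp)
    exact (ContinuousAlternatingMap.apply ℝ (Amb n k) ℝ ![c]).contDiff.comp h1
  have hevc : ∀ c : Amb n k, HasCompactSupport (fun y => β y ![c]) := by
    intro c
    exact β.hasCompactSupport.comp_left
      (g := ContinuousAlternatingMap.apply ℝ (Amb n k) ℝ ![c]) (map_zero _)
  set G : ℝ × ℝ × ℝ → ℝ := fun x => β (parCLM k v w x) ![b] with hG
  set H : ℝ × ℝ × ℝ → ℝ := fun x => β (parCLM k v w x) ![a] with hH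
  have hGd : ContDiff ℝ 1 G := (hev b).comp (parCLM k v w).contDiff
  have hHd : ContDiff ℝ 1 H := (hev a).comp (parCLM k v w).contDiff
  have hGc : HasCompactSupport G := (hevc b).comp_isClosedEmbedding (closedEmbedding_parL h)
  have hHc : HasCompactSupport H := (hevc a).comp_isClosedEmbedding (closedEmbedding_parL h)
  have h100 : parCLM k v w (1, 0, 0) = a := by
    show parL k v w (1, 0, 0) = a
    rw [parL_apply, ha]
    simp
  have h010 : parCLM k v w (0, 1, 0) = b := by
    show parL k v w (0, 1, 0) = b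
    rw [parL_apply, hb]
    simp
  have hGder : ∀ x, fderiv ℝ G x (1, 0, 0) =
      fderiv ℝ (fun y => β y ![b]) (parCLM k v w x) a := by
    intro x
    have h1 : fderiv ℝ G x = (fderiv ℝ (fun y => β y ![b]) (parCLM k v w x)).comp
        (parCLM k v w) := by
      have := ((hev b).differentiable (by norm_num) (parCLM k v w x)).hasFDerivAt.comp x
        (parCLM k v w).hasFDerivAt
      exact this.fderiv
    rw [h1, ContinuousLinearMap.comp_apply, h100]
  have hHder : ∀ x, fderiv ℝ H x (0, 1, 0) =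
      fderiv ℝ (fun y => β y ![a]) (parCLM k v w x) b := by
    intro x
    have h1 : fderiv ℝ H x = (fderiv ℝ (fun y => β y ![a]) (parCLM k v w x)).comp
        (parCLM k v w) := by
      have := ((hev a).differentiable (by norm_num) (parCLM k v w x)).hasFDerivAt.comp x
        (parCLM k v w).hasFDerivAt
      exact this.fderiv
    rw [h1, ContinuousLinearMap.comp_apply, h010]
  have hkey : ∀ x, (extD β) (parL k v w x) ![a, b] =
      fderiv ℝ G x (1, 0, 0) - fderiv ℝ H x (0, 1, 0) := by
    intro x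
    rw [hGder, hHder]
    show extDeriv (β : Amb n k → Cov (Amb n k) 1) (parL k v w x) ![a, b] = _
    rw [extDeriv_apply (hβd _), Fin.sum_univ_two]
    have e0 : (0 : Fin 2).removeNth ![a, b] = ![b] := by
      ext i : 1; fin_cases i; rfl
    have e1 : (1 : Fin 2).removeNth ![a, b] = ![a] := by
      ext i : 1; fin_cases i; rfl
    simp only [e0, e1]
    simp only [Fin.val_zero, pow_zero, one_smul, Fin.val_one, pow_one, neg_smul,
      Matrix.cons_val_zero, Matrix.cons_val_one]
    rw [← sub_eq_add_neg]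
    rfl
  have hcontG : Continuous (fun x => fderiv ℝ G x (1, 0, 0)) :=
    (hGd.continuous_fderiv (by norm_num)).clm_apply continuous_const
  have hcontH : Continuous (fun x => fderiv ℝ H x (0, 1, 0)) :=
    (hHd.continuous_fderiv (by norm_num)).clm_apply continuous_const
  simp only [hkey]
  rw [integral_sub
    ((hcontG.integrable_of_hasCompactSupport (hGc.fderiv_apply ℝ (1, 0, 0))).restrict)
    ((hcontH.integrable_of_hasCompactSupport (hHc.fderiv_apply ℝ (0, 1, 0))).restrict),
    integral_fst_deriv hGd hGc, integral_snd_deriv hHd hHc, sub_zero]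
  rfl

end Run7.h203.LeafCyc
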